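import Pool.Agent.Helper43.RP.Goals

/-!
# Project RP (MP_f5847d_nt), packet RP-CNT: the counting theorem
-/

set_option autoImplicit false

open Finset Pool.Agent.Helper22.FSU Pool.Agent.Helper50.FE

namespace Pool.Agent.Helper43.RP.CNT

theorem t (hG : Pool.Agent.Helper43.RP.GREED) (hB : Pool.Agent.Helper43.RP.BLKS) :
    Pool.Agent.Helper43.RP.CNT2 := by
  classical
  intro hC2 S hS
  obtain ⟨K, x1, ε, hε, hW⟩ := Pool.Agent.Helper50.FE.win S hS (1 / 2) (by norm_num) (by norm_num)
  obtain ⟨M', hM'⟩ := Pool.Agent.Helper50.FE.count S hS (1 / 2) (by norm_num)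
  have hK0 : (0 : ℝ) ≤ K := Nat.cast_nonneg K
  have h64 : (0 : ℝ) < Real.log 64 := Real.log_pos (by norm_num)
  have hM0 : 0 ≤ |M'| := abs_nonneg M'
  refine ⟨4 * K + |M'| * (1 + Real.log 64), fun C hC0 hC1 => ?_⟩
  have hinv : 1 < 1 / C := by
    rw [lt_div_iff₀ hC0]
    linarith
  have hlC : 0 < Real.log (1 / C) := Real.log_pos hinv
  by_cases hC : 1 / 64 < C
  · refine ⟨|M'|, fun Y X hY hYX => ?_⟩
    have hY1 : (1 : ℝ) < Y := by exact_mod_cast (by omega : 1 < Y)
    have hlY : 0 < Real.log Y := Real.log_pos hY1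
    have hXY : 1 ≤ Real.log X / Real.log Y := by
      rw [le_div_iff₀ hlY, one_mul]
      exact Real.log_le_log (by linarith) (by exact_mod_cast hYX)
    have hL0 : 0 ≤ Real.log (Real.log X / Real.log Y) := Real.log_nonneg hXY
    have hfin : {n : ℕ | Y ≤ n ∧ n ≤ X ∧ ∃ k, Near S (1 / 2) n k}.Finite :=
      (Set.finite_Icc Y X).subset fun n hn => ⟨hn.1, hn.2.1⟩
    have hle : {n : ℕ | Y ≤ n ∧ n ≤ X ∧ ∃ k, Near S C n k}.ncard ≤
        {n : ℕ | Y ≤ n ∧ n ≤ X ∧ ∃ k, Near S (1 / 2) n k}.ncard := by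
      refine Set.ncard_le_ncard ?_ hfin
      rintro n ⟨h1, h2, k, hk⟩
      exact ⟨h1, h2, k, Pool.Agent.Helper14.FE.near_mono hC1 (by omega) hk⟩
    have h1 : (({n : ℕ | Y ≤ n ∧ n ≤ X ∧ ∃ k, Near S C n k}.ncard : ℕ) : ℝ) ≤
        (({n : ℕ | Y ≤ n ∧ n ≤ X ∧ ∃ k, Near S (1 / 2) n k}.ncard : ℕ) : ℝ) := by
      exact_mod_cast hle
    have h2 := hM' Y X hY hYX
    have h3 : M' * (1 + Real.log (Real.log X / Real.log Y)) ≤
        |M'| * (1 + Real.log (Real.log X / Real.log Y)) :=
      mul_le_mul_of_nonneg_right (le_abs_self M') (by linarith)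
    have h4 : Real.log (1 / C) ≤ Real.log 64 := by
      apply Real.log_le_log (by linarith)
      rw [div_le_iff₀ hC0]
      linarith
    have h5 : Real.log (Real.log X / Real.log Y) ≤
        Real.log 64 * (Real.log (Real.log X / Real.log Y) / Real.log (1 / C)) := by
      rw [mul_div_assoc', le_div_iff₀ hlC, mul_comm]
      exact mul_le_mul_of_nonneg_right h4 hL0
    have h6 : 0 ≤ Real.log (Real.log X / Real.log Y) / Real.log (1 / C) := div_nonneg hL0 hlC.le
    have h7 : |M'| * Real.log (Real.log X / Real.log Y) ≤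
        (4 * K + |M'| * (1 + Real.log 64)) *
          (Real.log (Real.log X / Real.log Y) / Real.log (1 / C)) := by
      calc |M'| * Real.log (Real.log X / Real.log Y)
          ≤ |M'| * (Real.log 64 * (Real.log (Real.log X / Real.log Y) / Real.log (1 / C))) :=
            mul_le_mul_of_nonneg_left h5 hM0
        _ = (|M'| * Real.log 64) * (Real.log (Real.log X / Real.log Y) / Real.log (1 / C)) := by
            ring
        _ ≤ _ := by
            apply mul_le_mul_of_nonneg_right _ h6
            nlinarith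
    calc (({n : ℕ | Y ≤ n ∧ n ≤ X ∧ ∃ k, Near S C n k}.ncard : ℕ) : ℝ)
        ≤ |M'| * (1 + Real.log (Real.log X / Real.log Y)) := h1.trans (h2.trans h3)
      _ = |M'| + |M'| * Real.log (Real.log X / Real.log Y) := by ring
      _ ≤ _ := by linarith
  · have hC' : C ≤ 1 / 64 := not_lt.1 hC
    obtain ⟨m, x0, hm, hcore⟩ := hC2 S hS (min ε 1) C (lt_min hε one_pos) (min_le_right _ _) hC0 hC'
    have hδ0 : 0 < min ε 1 := lt_min hε one_pos
    have hδε : min ε 1 ≤ ε := min_le_left _ _
    obtain ⟨x2, hx2⟩ : ∃ x2 : ℕ, x2 = max x0 (max x1 3) := ⟨_, rfl⟩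
    have hx20 : x0 ≤ x2 := by rw [hx2]; exact le_max_left _ _
    have hx21 : x1 ≤ x2 := by rw [hx2]; exact (le_max_left _ _).trans (le_max_right _ _)
    have hx23 : 3 ≤ x2 := by rw [hx2]; exact (le_max_right _ _).trans (le_max_right _ _)
    refine ⟨x2 + K * m, fun Y X hY hYX => ?_⟩
    have hY1 : (1 : ℝ) < Y := by exact_mod_cast (by omega : 1 < Y)
    have hlY : 0 < Real.log Y := Real.log_pos hY1
    have hXY : 1 ≤ Real.log X / Real.log Y := by
      rw [le_div_iff₀ hlY, one_mul]
      exact Real.log_le_log (by linarith) (by exact_mod_cast hYX)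
    obtain ⟨L, hL⟩ : ∃ L, L = Real.log (Real.log X / Real.log Y) := ⟨_, rfl⟩
    have hL0 : 0 ≤ L := by
      rw [hL]
      exact Real.log_nonneg hXY
    rw [← hL]
    obtain ⟨E, hE⟩ : ∃ E : Finset ℕ,
        E = (Icc Y X).filter fun n => x2 ≤ n ∧ ∃ k, Near S C n k := ⟨_, rfl⟩
    have hmE : ∀ n, n ∈ E ↔ (Y ≤ n ∧ n ≤ X) ∧ x2 ≤ n ∧ ∃ k, Near S C n k := by
      intro n
      rw [hE, mem_filter, mem_Icc]
    have hsub : {n : ℕ | Y ≤ n ∧ n ≤ X ∧ ∃ k, Near S C n k} ⊆
        ((range x2 ∪ E : Finset ℕ) : Set ℕ) := by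
      rintro n ⟨h1, h2, h3⟩
      rw [mem_coe, mem_union, mem_range]
      by_cases hn : n < x2
      · exact Or.inl hn
      · exact Or.inr ((hmE n).2 ⟨⟨h1, h2⟩, not_lt.1 hn, h3⟩)
    have hcard : {n : ℕ | Y ≤ n ∧ n ≤ X ∧ ∃ k, Near S C n k}.ncard ≤ x2 + E.card := by
      refine (Set.ncard_le_ncard hsub (Finset.finite_toSet _)).trans ?_
      rw [Set.ncard_coe_finset]
      refine (card_union_le _ _).trans ?_
      rw [card_range]
    have hcardR : (({n : ℕ | Y ≤ n ∧ n ≤ X ∧ ∃ k, Near S C n k}.ncard : ℕ) : ℝ) ≤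
        x2 + (E.card : ℝ) := by exact_mod_cast hcard
    have hlog : ∀ n ∈ E, 0 < Real.log (n : ℝ) := by
      intro n hn
      have h1 := ((hmE n).1 hn).2.1
      apply Real.log_pos
      exact_mod_cast (by omega : 1 < n)
    obtain ⟨N, n, hKN, hmem, hch⟩ := hG K (min ε 1) E (le_min hε.le zero_le_one) (by
      intro x hx W hWE hy
      have hx' := (hmE x).1 hx
      refine hW x (hx21.trans hx'.2.1) W fun y hyW => ?_
      obtain ⟨h1, h2⟩ := hy y hyW
      refine ⟨h1, h2.trans ?_, ?_⟩
      · exact mul_le_mul_of_nonneg_right (by linarith) (hlog x hx).le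
      · obtain ⟨k, hk⟩ := ((hmE y).1 (hWE hyW)).2.2
        refine ⟨k, Pool.Agent.Helper14.FE.near_mono (C' := 1 - 1 / 2) (by linarith) ?_ hk⟩
        have := ((hmE y).1 (hWE hyW)).2.1
        omega)
    have hKNR : (E.card : ℝ) ≤ K * N := by exact_mod_cast hKN
    have hN : (N : ℝ) ≤ m + 4 * (L / Real.log (1 / C)) := by
      rcases Nat.eq_zero_or_pos N with h0 | h0
      · rw [h0]
        have h1 : 0 ≤ L / Real.log (1 / C) := div_nonneg hL0 hlC.le
        have h2 : (0 : ℝ) ≤ m := Nat.cast_nonneg m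
        push_cast
        linarith
      · have hex : ∀ i, i < N → ∃ k, Near S C (n i) k := fun i hi => ((hmE _).1 (hmem i hi)).2.2
        choose! k hk using hex
        have h1 := hB m N (fun i => Real.log (n i)) C hm h0 hC0 hC'
          (fun i hi => hlog _ (hmem i hi))
          (fun i hi => by
            have h2 := hch i hi
            have h3 := hlog _ (hmem i (by omega))
            nlinarith)
          (fun b hb => hcore (fun i => n (b + i)) (fun i => k (b + i))
            (fun i hi => hx20.trans ((hmE _).1 (hmem (b + i) (by omega))).2.1)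
            (fun i hi => hch (b + i) (by omega))
            (fun i hi => hk (b + i) (by omega)))
        refine h1.trans ?_
        have hn0 := hlog _ (hmem 0 h0)
        have hnN := hlog _ (hmem (N - 1) (by omega))
        have h2 : Real.log (n (N - 1)) / Real.log (n 0) ≤ Real.log X / Real.log Y := by
          apply div_le_div₀
          · have h5 := hXY
            rw [le_div_iff₀ hlY, one_mul] at h5
            linarith
          · apply Real.log_le_log
            · have := ((hmE _).1 (hmem (N - 1) (by omega))).2.1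
              exact_mod_cast (by omega : 0 < n (N - 1))
            · exact_mod_cast ((hmE _).1 (hmem (N - 1) (by omega))).1.2
          · exact hlY
          · apply Real.log_le_log (by linarith)
            exact_mod_cast ((hmE _).1 (hmem 0 h0)).1.1
        have h3 : Real.log (Real.log (n (N - 1)) / Real.log (n 0)) ≤ L := by
          rw [hL]
          exact Real.log_le_log (div_pos hnN hn0) h2
        have h4 : 4 * Real.log (Real.log (n (N - 1)) / Real.log (n 0)) / Real.log (1 / C) ≤
            4 * (L / Real.log (1 / C)) := by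
          rw [mul_div_assoc]
          exact mul_le_mul_of_nonneg_left (div_le_div_of_nonneg_right h3 hlC.le) (by norm_num)
        linarith
    have h6 : 0 ≤ L / Real.log (1 / C) := div_nonneg hL0 hlC.le
    have h7 : (K : ℝ) * N ≤ K * (m + 4 * (L / Real.log (1 / C))) :=
      mul_le_mul_of_nonneg_left hN hK0
    have h8 : 4 * (K : ℝ) * (L / Real.log (1 / C)) ≤
        (4 * K + |M'| * (1 + Real.log 64)) * (L / Real.log (1 / C)) := by
      apply mul_le_mul_of_nonneg_right _ h6
      have : 0 ≤ |M'| * (1 + Real.log 64) := mul_nonneg hM0 (by linarith)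
      linarith
    calc (({n : ℕ | Y ≤ n ∧ n ≤ X ∧ ∃ k, Near S C n k}.ncard : ℕ) : ℝ)
        ≤ x2 + (E.card : ℝ) := hcardR
      _ ≤ x2 + K * (m + 4 * (L / Real.log (1 / C))) := by linarith
      _ = (x2 + K * m) + 4 * (K : ℝ) * (L / Real.log (1 / C)) := by ring
      _ ≤ _ := by linarith

end Pool.Agent.Helper43.RP.CNT
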