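import Pool.Agent.Helper43.RP.CoreB

/-!
# Project RP: CORE2
-/

set_option autoImplicit false

open Finset Pool.Agent.Helper22.FSU Pool.Agent.Helper50.FE

namespace Pool.Agent.Helper43.RP

theorem log_compare2 {m : ℕ} (R : Fin m → ℝ) (hR : ∀ i, 0 < R i) (G : Fin m → ℕ) {Q x Y : ℝ}
    (hQ : 0 < Q) (N : ℕ) (h1 : (∏ i, R i ^ G i) / Q ≤ |x|)
    (h2 : |x| ≤ 64 ^ N * Real.exp (-Y)) :
    ∑ i, (G i : ℝ) * Real.log (R i) - Real.log Q ≤ (N : ℝ) * Real.log 64 - Y := by
  have h3 := h1.trans h2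
  have hP : 0 < ∏ i, R i ^ G i := Finset.prod_pos fun i _ => pow_pos (hR i) _
  have h4 : 0 < (∏ i, R i ^ G i) / Q := by positivity
  have h5 := Real.log_le_log h4 h3
  rw [Real.log_div hP.ne' hQ.ne', Real.log_prod (fun i _ => (pow_pos (hR i) _).ne'),
    Real.log_mul (by positivity) (Real.exp_pos _).ne', Real.log_pow, Real.log_exp] at h5
  have h6 : ∑ i, Real.log (R i ^ G i) = ∑ i, (G i : ℝ) * Real.log (R i) :=
    Finset.sum_congr rfl fun i _ => Real.log_pow _ _
  rw [h6] at h5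
  linarith

theorem RR_pos (a n : ℕ) : 0 < RR a n := by
  unfold RR
  refine Finset.prod_pos fun q hq => ?_
  exact pow_pos (Finset.mem_filter.1 hq).2.pos _

theorem exp_small {δ L Q : ℝ} (hδ : 0 < δ) (hQ : 0 < Q) (h : |Real.log Q| / δ ≤ L) :
    Q * Real.exp (-(δ * L)) ≤ 1 := by
  rw [div_le_iff₀ hδ] at h
  have h1 : Real.log Q ≤ δ * L := by
    have := le_abs_self (Real.log Q)
    linarith
  have h2 : Q ≤ Real.exp (δ * L) := by
    rw [← Real.exp_log hQ]
    exact Real.exp_le_exp.2 h1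
  rw [Real.exp_neg]
  have h3 := Real.exp_pos (δ * L)
  rw [← div_eq_mul_inv, div_le_one h3]
  exact h2

/-- facts on the chain -/
theorem chain_facts {m : ℕ} {δ : ℝ} (hδ : 0 < δ) (hδ1 : δ ≤ 1) (n : ℕ → ℕ) (Lf : ℕ → ℝ)
    (hLf : Lf = fun i => Real.log (n i)) (hn : ∀ i, i < m → 100 ≤ n i)
    (hch : ∀ i, i + 1 < m → (1 + δ) * Real.log (n i) ≤ Real.log (n (i + 1))) :
    (∀ i, i < m → 0 < Lf i) ∧
    (∀ i j, i ≤ j → j < m → Lf i ≤ Lf j) ∧
    (∀ i j, i < j → j < m → (1 + δ) * Lf i ≤ Lf j) ∧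
    (∀ i, i < m → δ / 2 * Lf i ≤ dif Lf i) ∧ (∀ i, i < m → dif Lf i ≤ Lf i) ∧
    (∀ i, i + 1 < m → δ * Lf i ≤ dif Lf (i + 1)) ∧
    (∀ i j, i ≤ j → j < m → n i ≤ n j) ∧
    (∀ i j, i < j → j < m → (n i : ℝ) * Lf i ≤ Real.exp (-(δ * Lf i)) * ((n j : ℝ) * Lf j)) := by
  have hpos : ∀ i, i < m → 0 < Lf i := by
    intro i hi
    rw [hLf]
    apply Real.log_pos
    have : (100 : ℝ) ≤ n i := by exact_mod_cast hn i hi
    linarith
  have hstep : ∀ i, i + 1 < m → (1 + δ) * Lf i ≤ Lf (i + 1) := by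
    intro i hi
    rw [hLf]
    exact hch i hi
  have hmono : ∀ d i, i + d < m → Lf i ≤ Lf (i + d) := by
    intro d
    induction d with
    | zero => intro i _; exact le_rfl
    | succ d ih =>
      intro i hi
      have h1 := ih i (by omega)
      have h2 := hstep (i + d) (by omega)
      have h3 := hpos (i + d) (by omega)
      have h4 : i + (d + 1) = i + d + 1 := by omega
      rw [h4]
      nlinarith
  have hmono' : ∀ i j, i ≤ j → j < m → Lf i ≤ Lf j := by
    intro i j hij hj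
    obtain ⟨d, rfl⟩ := Nat.exists_eq_add_of_le hij
    exact hmono d i hj
  have hch' : ∀ i j, i < j → j < m → (1 + δ) * Lf i ≤ Lf j := by
    intro i j hij hj
    exact (hstep i (by omega)).trans (hmono' (i + 1) j (by omega) hj)
  refine ⟨hpos, hmono', hch', ?_, ?_, ?_, ?_, ?_⟩
  · intro i hi
    have h1 := hpos i hi
    unfold dif
    by_cases h0 : i = 0
    · rw [if_pos h0, h0]
      rw [h0] at h1
      nlinarith
    · rw [if_neg h0]
      have h2 := hstep (i - 1) (by omega)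
      rw [show i - 1 + 1 = i by omega] at h2
      have h3 := hpos (i - 1) (by omega)
      have h4 : (1 + δ) * (δ / 2 * Lf i) ≤ (1 + δ) * (Lf i - Lf (i - 1)) := by
        have h5 : 0 ≤ δ * Lf i := by positivity
        have h6 : δ * (δ * Lf i) ≤ 1 * (δ * Lf i) := mul_le_mul_of_nonneg_right hδ1 h5
        nlinarith
      exact le_of_mul_le_mul_left h4 (by linarith)
  · intro i hi
    unfold dif
    by_cases h0 : i = 0
    · rw [if_pos h0, h0]
    · rw [if_neg h0]
      have h3 := hpos (i - 1) (by omega)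
      linarith
  · intro i hi
    unfold dif
    rw [if_neg (by omega)]
    have h2 := hstep i hi
    rw [show i + 1 - 1 = i by omega]
    linarith
  · intro i j hij hj
    have h1 := hmono' i j hij hj
    rw [hLf] at h1
    have h2 : (0 : ℝ) < n i := by
      have := hn i (by omega)
      have h3 : 0 < n i := by omega
      exact_mod_cast h3
    have h3 : (0 : ℝ) < n j := by
      have := hn j hj
      have h3 : 0 < n j := by omega
      exact_mod_cast h3
    have h4 := (Real.log_le_log_iff h2 h3).1 h1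
    exact_mod_cast h4
  · intro i j hij hj
    have h2 : (0 : ℝ) < n i := by
      have := hn i (by omega)
      have h3 : 0 < n i := by omega
      exact_mod_cast h3
    have h3 : (0 : ℝ) < n j := by
      have := hn j hj
      have h3 : 0 < n j := by omega
      exact_mod_cast h3
    have h4 : (n i : ℝ) = Real.exp (Lf i) := by rw [hLf]; exact (Real.exp_log h2).symm
    have h5 : (n j : ℝ) = Real.exp (Lf j) := by rw [hLf]; exact (Real.exp_log h3).symm
    have h6 := hch' i j hij hj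
    have h7 : (n i : ℝ) ≤ Real.exp (-(δ * Lf i)) * n j := by
      rw [h4, h5, ← Real.exp_add]
      apply Real.exp_le_exp.2
      linarith
    have h8 := hmono' i j hij.le hj
    have h9 := hpos i (by omega)
    calc (n i : ℝ) * Lf i ≤ (Real.exp (-(δ * Lf i)) * n j) * Lf i :=
          mul_le_mul_of_nonneg_right h7 h9.le
      _ ≤ (Real.exp (-(δ * Lf i)) * n j) * Lf j :=
          mul_le_mul_of_nonneg_left h8 (by positivity)
      _ = _ := by ring

theorem core2 (hSI : SIEG2) (hNV : NV2) (hUB : UB2) (hLB : LB2) (hLR : LOGR) (hCU : CUP)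
    (hCL : CLB) (hCE : CELL) (hNE : NEAR2) : CORE2 := by
  classical
  intro S hS δ C hδ hδ1 hC hC64
  obtain ⟨c0, hc0, hlogR⟩ := hLR
  obtain ⟨t, ht⟩ : ∃ t : ℕ, t = S.card := ⟨_, rfl⟩
  obtain ⟨a0, ha0⟩ : ∃ a0 : ℝ, a0 = δ / 16 := ⟨_, rfl⟩
  have ha00 : 0 < a0 := by rw [ha0]; positivity
  have ha01 : a0 ≤ 1 / 16 := by rw [ha0]; linarith only [hδ1]
  have ht0 : (0 : ℝ) ≤ t := by positivity
  obtain ⟨C1, hC1⟩ : ∃ C1 : ℝ, C1 = 16 * ((t : ℝ) + 1) / a0 + 1 := ⟨_, rfl⟩
  have hC11 : 1 ≤ C1 := by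
    have : 0 ≤ 16 * ((t : ℝ) + 1) / a0 := by positivity
    rw [hC1]; linarith only [this]
  obtain ⟨m, hm2, hmexp⟩ := exM t C C1 hC hC11
  have hm1 : 1 ≤ m := by omega
  have hm2r : (2 : ℝ) ≤ m := by exact_mod_cast hm2
  have hm0 : (0 : ℝ) < m := by linarith only [hm2r]
  obtain ⟨q, hq⟩ : ∃ q : ℝ, q = 1 / (m : ℝ) := ⟨_, rfl⟩
  have hq0 : 0 < q := by rw [hq]; positivity
  have hq1 : q ≤ 1 / 2 := by
    rw [hq, div_le_div_iff₀ hm0 (by norm_num)]
    linarith only [hm2r]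
  have hqm : q * m = 1 := by rw [hq]; field_simp
  obtain ⟨ε, hε⟩ : ∃ ε : ℝ, ε = a0 * q / 100 := ⟨_, rfl⟩
  have hε0 : 0 < ε := by rw [hε]; positivity
  have hεa : ε ≤ a0 / 200 := by
    have h1 := mul_le_mul_of_nonneg_left hq1 ha00.le
    rw [hε]
    linarith only [h1]
  have hε1 : ε ≤ 1 / 2 := by linarith only [hεa, ha01]
  obtain ⟨ω, K, hω, hK, hroth⟩ := hNV m ε hε0
  obtain ⟨xH, hxH⟩ := Pool.Agent.Helper8.FE.goalHGT S hS
  have hlog64 : 1 ≤ Real.log 64 := by
    rw [Real.le_log_iff_exp_le (by norm_num)]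
    have := Real.exp_one_lt_d9
    linarith only [this]
  obtain ⟨Q1, hQ1⟩ : ∃ Q1 : ℝ, Q1 = 3 / 2 * (m : ℝ) ^ 2 / ε := ⟨_, rfl⟩
  obtain ⟨Q2, hQ2⟩ : ∃ Q2 : ℝ, Q2 = 3 / 2 / ω := ⟨_, rfl⟩
  have hQ10 : 0 < Q1 := by rw [hQ1]; positivity
  have hQ20 : 0 < Q2 := by rw [hQ2]; positivity
  have b1 : 0 ≤ 16 / C := by positivity
  have b2 : 0 ≤ 2 * c0 / δ := by positivity
  have b3 : 0 ≤ 3 / 2 * c0 * (m : ℝ) ^ 2 / ε := by positivity
  have b4 : 0 ≤ |Real.log Q1| / δ := by positivity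
  have b5 : 0 ≤ |Real.log Q2| / δ := by positivity
  have b6 : 0 ≤ 3 / 2 * (m * Real.log 64) / ε := by positivity
  have b7 : 0 ≤ 3 * (m * K) := by positivity
  have b8 : (0 : ℝ) ≤ xH := by positivity
  obtain ⟨x0, hx0⟩ := exists_x0
    (1 + 16 / C + 2 * c0 / δ + 3 / 2 * c0 * (m : ℝ) ^ 2 / ε + |Real.log Q1| / δ +
      |Real.log Q2| / δ)
    (100 + 3 / 2 * (m * Real.log 64) / ε + 3 * (m * K) + xH)
  refine ⟨m, x0, hm2, ?_⟩
  intro n k hn hch hnear
  by_contra hcon
  push Not at hcon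
  obtain ⟨Lf, hLf⟩ : ∃ Lf : ℕ → ℝ, Lf = fun i => Real.log (n i) := ⟨_, rfl⟩
  have hA : ∀ i : Fin m, 1 ≤ Lf i ∧ 16 / C ≤ Lf i ∧ 2 * c0 / δ ≤ Lf i ∧
      3 / 2 * c0 * (m : ℝ) ^ 2 / ε ≤ Lf i ∧ |Real.log Q1| / δ ≤ Lf i ∧
      |Real.log Q2| / δ ≤ Lf i := by
    intro i
    have h1 := (hx0 _ (hn i i.isLt)).1
    rw [hLf]
    refine ⟨?_, ?_, ?_, ?_, ?_, ?_⟩ <;> simp only <;>
      linarith only [h1, b1, b2, b3, b4, b5]
  have hB : ∀ i : Fin m, 100 ≤ (n i : ℝ) ∧ 3 / 2 * (m * Real.log 64) / ε ≤ n i ∧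
      3 * (m * K) ≤ n i ∧ (xH : ℝ) ≤ n i := by
    intro i
    have h1 := (hx0 _ (hn i i.isLt)).2
    refine ⟨?_, ?_, ?_, ?_⟩ <;> linarith only [h1, b6, b7, b8]
  clear hx0
  have hn100 : ∀ i, i < m → 100 ≤ n i := fun i hi => by
    have := (hB ⟨i, hi⟩).1
    exact_mod_cast this
  obtain ⟨cpos, cmono, cch, cwlow, cwup, cwnext, cnmono, chh⟩ :=
    chain_facts hδ hδ1 n Lf hLf hn100 hch
  obtain ⟨L, hLdef⟩ : ∃ L : Fin m → ℝ, L = fun i : Fin m => Lf i := ⟨_, rfl⟩
  obtain ⟨w, hw⟩ : ∃ w : Fin m → ℝ, w = fun i : Fin m => dif Lf i := ⟨_, rfl⟩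
  obtain ⟨nr, hnr⟩ : ∃ nr : Fin m → ℝ, nr = fun i : Fin m => (n i : ℝ) := ⟨_, rfl⟩
  obtain ⟨h, hh⟩ : ∃ h : Fin m → ℝ, h = fun i : Fin m => nr i * L i := ⟨_, rfl⟩
  have hLi : ∀ i : Fin m, L i = Lf i := fun i => by rw [hLdef]
  have hwi : ∀ i : Fin m, w i = dif Lf i := fun i => by rw [hw]
  have hnri : ∀ i : Fin m, nr i = (n i : ℝ) := fun i => by rw [hnr]
  have hhi : ∀ i : Fin m, h i = nr i * L i := fun i => by rw [hh]
  have hn0 : ∀ i, 0 < nr i := fun i => by
    have := (hB i).1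
    rw [hnri]
    linarith only [this]
  have hL1 : ∀ i, 1 ≤ L i := fun i => by rw [hLi]; exact (hA i).1
  have hL0 : ∀ i, 0 < L i := fun i => lt_of_lt_of_le one_pos (hL1 i)
  have hh0 : ∀ i, 0 < h i := fun i => by
    have h1 := hn0 i
    have h2 := hL0 i
    rw [hhi]; positivity
  have hhn : ∀ i : Fin m, (n i : ℝ) ≤ h i := fun i => by
    rw [hhi, hnri]
    have h1 := hL1 i
    have h2 : (0 : ℝ) ≤ n i := by positivity
    exact le_mul_of_one_le_right h2 h1
  have hLsum : ∀ j : Fin m, L j = ∑ i ∈ univ.filter (fun i : Fin m => i ≤ j), w i := by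
    intro j
    rw [hLi, hw]
    exact (sum_dif_fin Lf j).symm
  have hw0 : ∀ i, 0 < w i := fun i => by
    have h1 := cwlow i i.isLt
    have h2 := cpos i i.isLt
    rw [hwi]
    exact lt_of_lt_of_le (by positivity) h1
  have hwup : ∀ i, w i * nr i ≤ h i := fun i => by
    have h1 := cwup i i.isLt
    have h2 := hn0 i
    rw [hhi, hwi, hLi, mul_comm (nr i)]
    exact mul_le_mul_of_nonneg_right h1 h2.le
  obtain ⟨i0, hi0⟩ : ∃ i0 : Fin m, i0.val = 0 := ⟨⟨0, by omega⟩, rfl⟩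
  obtain ⟨D, r, hD, hsumh, hhD, hr1, hrlow, hrup⟩ := degs h hh0 ε hε0 hε1 i0
  have hεD : 0 < ε * D := by positivity
  obtain ⟨s, hs⟩ : ∃ s : Fin m → ℕ, s = fun i => r i / 2 := ⟨_, rfl⟩
  have hs1 : ∀ i, 2 * (s i : ℝ) ≤ r i ∧ (r i : ℝ) ≤ 2 * s i + 1 := by
    intro i
    have h1 : 2 * s i ≤ r i ∧ r i ≤ 2 * s i + 1 := by
      rw [hs]
      simp only
      omega
    exact ⟨by exact_mod_cast h1.1, by exact_mod_cast h1.2⟩
  obtain ⟨Δ, hΔ⟩ : ∃ Δ : ℝ, Δ = a0 * D := ⟨_, rfl⟩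
  obtain ⟨T, hT⟩ : ∃ T : ℝ, T = a0 * D * (1 + q / 4) := ⟨_, rfl⟩
  have hT0 : 0 < T := by rw [hT]; positivity
  have hwn : ∑ i, w i * nr i ≤ ε * D := by
    rw [← hsumh]
    exact Finset.sum_le_sum fun i _ => hwup i
  have haD : 0 < a0 * D := by positivity
  have hεDa : ε * D ≤ a0 * D / 200 := by
    have h1 := mul_le_mul_of_nonneg_right hεa hD.le
    linarith only [h1]
  have hεD2 : ε * D ≤ D / 2 := by
    have h1 := mul_le_mul_of_nonneg_right hε1 hD.le
    linarith only [h1]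
  -- the points
  obtain ⟨U, hU1, hU2, hU3⟩ := hCL m nr w r s Δ hn0 hw0
    (by rw [hΔ]; linarith only [hwn, hεDa, haD]) (by
    intro j
    have h1 := cwlow j j.isLt
    rw [← hwi, ← hLi] at h1
    have h2 := (hs1 j).1
    have h3 := hrlow j
    have h4 := hn0 j
    have h5 : (r j : ℝ) / 2 ≤ (r j : ℝ) - s j := by linarith only [h2]
    have h6 : (δ / 2 * L j) * nr j * ((r j : ℝ) / 2) ≤ w j * nr j * ((r j : ℝ) - s j) := by
      have h7 : (δ / 2 * L j) * nr j ≤ w j * nr j := mul_le_mul_of_nonneg_right h1 h4.le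
      have h8 := hw0 j
      exact mul_le_mul h7 h5 (by positivity) (by positivity)
    refine le_trans ?_ h6
    rw [hΔ, ha0]
    have h9 : (δ / 2 * L j) * nr j * ((r j : ℝ) / 2) = δ / 4 * ((r j : ℝ) * h j) := by
      rw [hhi]; ring
    rw [h9]
    have h10 := mul_le_mul_of_nonneg_left h3 hδ.le
    linarith only [h10, mul_pos hδ hD]) (by
    intro i j hij
    have h1 := cwnext i (by rw [← hij]; exact j.isLt)
    rw [← hij, ← hwi, ← hLi] at h1
    have h2 := (hs1 i).2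
    have h3 := hrlow i
    have h4 := hn0 i
    have h5 := hhD i
    have h6 : (δ * L i) * nr i * (((r i : ℝ) - 1) / 2) ≤ w j * nr i * (s i : ℝ) := by
      have h7 : (δ * L i) * nr i ≤ w j * nr i := mul_le_mul_of_nonneg_right h1 h4.le
      have h8 := hw0 j
      have h9 : (1 : ℝ) ≤ r i := by exact_mod_cast hr1 i
      exact mul_le_mul h7 (by linarith only [h2]) (by linarith only [h9]) (by positivity)
    refine le_trans ?_ h6
    have h9 : (δ * L i) * nr i * (((r i : ℝ) - 1) / 2) = δ / 2 * ((r i : ℝ) * h i - h i) := by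
      rw [hhi]; ring
    rw [h9, hΔ, ha0]
    have h10 : D / 2 ≤ (r i : ℝ) * h i - h i := by linarith only [h3, h5, hεD2]
    have h11 := mul_le_mul_of_nonneg_left h10 hδ.le
    linarith only [h11, mul_pos hδ hD])
  have hΔw : 0 < Δ - ∑ i, w i * nr i := by rw [hΔ]; linarith only [hwn, hεDa, haD]
  have hvprod : 0 < ∏ i, (w i * nr i) := Finset.prod_pos fun i _ => mul_pos (hw0 i) (hn0 i)
  have hUne : U.Nonempty := by
    rw [Finset.nonempty_iff_ne_empty]
    intro h0
    rw [h0, Finset.card_empty, Nat.cast_zero, zero_mul] at hU3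
    exact absurd (lt_of_lt_of_le (pow_pos hΔw m) hU3) (lt_irrefl _)
  -- the conditions
  obtain ⟨β, hβ⟩ : ∃ β : Fin m → ℝ, β = fun i => (1 - C) * (nr i * L i) - 2 * nr i := ⟨_, rfl⟩
  have hβi : ∀ i, β i = (1 - C) * (nr i * L i) - 2 * nr i := fun i => by rw [hβ]
  have hβ0 : ∀ i, 0 < β i := by
    intro i
    have h1 := (hA i).2.1
    rw [← hLi] at h1
    have h2 : (1024 : ℝ) ≤ 16 / C := by
      rw [le_div_iff₀ hC]; linarith only [hC64]
    have h3 : β i = nr i * (L i - C * L i - 2) := by rw [hβi]; ring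
    rw [h3]
    apply mul_pos (hn0 i)
    have h4 := mul_le_mul_of_nonneg_right hC64 (hL0 i).le
    linarith only [h1, h2, h4]
  have hβh : ∀ i, β i ≤ h i := by
    intro i
    rw [hβi, hhi]
    have h1 := hn0 i
    have h2 : 0 ≤ C * (nr i * L i) := by
      have := hL0 i
      positivity
    have h3 : (1 - C) * (nr i * L i) = nr i * L i - C * (nr i * L i) := by ring
    rw [h3]
    linarith only [h1, h2]
  obtain ⟨B, hB1, hB2⟩ := hCU m β T hβ0 hT0.le
  -- the cells
  have hsmallr := r_bound hm1 r h D (Real.log 64) ε hε0.le hrup (by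
    intro i
    have h1 := (hB i).2.1
    rw [div_le_iff₀ hε0] at h1
    have h2 := mul_le_mul_of_nonneg_left (hhn i) hε0.le
    linarith only [h1, h2])
  have hKr := r_bound hm1 r h D K (1 / 2) (by norm_num) hrup (by
    intro i
    have h1 := (hB i).2.2.1
    have h2 := hhn i
    linarith only [h1, h2])
  obtain ⟨R, hR⟩ : ∃ R : ℕ, R = ∑ i, r i := ⟨_, rfl⟩
  rw [← hR] at hsmallr hKr
  have hR0 : (0 : ℝ) ≤ R := by positivity
  have hRε : (R : ℝ) ≤ ε * D := (le_mul_of_one_le_left hR0 hlog64).trans hsmallr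
  have hnearf : ∀ i : Fin m,
      |(((((n i).factorial : ℕ) : ℚ) / (su S (k i) : ℚ) : ℚ) : ℝ) - 1| ≤ Real.exp (-(β i)) ∧
      Real.log (su S (k i) : ℝ) ≤ nr i * L i + 1 := by
    intro i
    have h1 := hNE S hS C hC.le (by linarith only [hC64]) (n i) (hn100 i i.isLt) (k i) (hnear i i.isLt)
    rw [hβi, hnri, hLi, hLf]
    exact h1
  have hlogp : ∀ p ∈ S, 0 < Real.log (p : ℝ) := by
    intro p hp
    apply Real.log_pos
    exact_mod_cast (hS p hp).one_lt
  obtain ⟨F, hF⟩ : ∃ F : ℕ → (Fin m → ℕ) → ℝ,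
      F = fun p a => ∑ i : Fin m, (a i : ℝ) * ((k i p : ℝ) * Real.log p) := ⟨_, rfl⟩
  have hFpa : ∀ p a, F p a = ∑ i : Fin m, (a i : ℝ) * ((k i p : ℝ) * Real.log p) := fun p a => by
    rw [hF]
  have hFub : ∀ p ∈ S, ∀ a ∈ U, 0 ≤ F p a ∧ F p a ≤ 3 / 2 * m * D + ε * D := by
    intro p hp a ha
    have hlp := hlogp p hp
    have hab : ∀ i, a i ≤ r i := Pool.Agent.Helper87.FE.mem_box.1 (hU1 ha)
    rw [hFpa]
    constructor
    · exact Finset.sum_nonneg fun i _ => by positivity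
    · have h1 : ∀ i, (a i : ℝ) * ((k i p : ℝ) * Real.log p) ≤ (r i : ℝ) * h i + r i := by
        intro i
        have h2 : (k i p : ℝ) * Real.log p ≤ Real.log (su S (k i) : ℝ) := by
          rw [log_su hS]
          exact Finset.single_le_sum (f := fun q : ℕ => (k i q : ℝ) * Real.log q)
            (fun q hq => by have := hlogp q hq; positivity) hp
        have h3 := (hnearf i).2
        rw [← hhi] at h3
        have h4 : (a i : ℝ) ≤ r i := by exact_mod_cast hab i
        have h5 : (k i p : ℝ) * Real.log p ≤ h i + 1 := h2.trans h3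
        calc (a i : ℝ) * ((k i p : ℝ) * Real.log p) ≤ (r i : ℝ) * (h i + 1) :=
              mul_le_mul h4 h5 (by positivity) (by positivity)
          _ = _ := by ring
      have h6 : ∑ i : Fin m, (a i : ℝ) * ((k i p : ℝ) * Real.log p) ≤
          ∑ i : Fin m, (3 / 2 * D + (r i : ℝ)) :=
        Finset.sum_le_sum fun i _ => (h1 i).trans (by have := hrup i; linarith only [this])
      rw [Finset.sum_add_distrib, Finset.sum_const, Finset.card_univ, Fintype.card_fin,
        nsmul_eq_mul, ← Nat.cast_sum, ← hR] at h6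
      linarith only [h6, hRε]
  obtain ⟨δc, hδc⟩ : ∃ δc : ℝ, δc = a0 * D * q / (8 * ((t : ℝ) + 1)) := ⟨_, rfl⟩
  have hδc0 : 0 < δc := by rw [hδc]; positivity
  have htδc : (t : ℝ) * δc ≤ a0 * D * q / 8 := by
    rw [hδc, mul_div_assoc', div_le_div_iff₀ (by positivity) (by norm_num)]
    have : 0 < a0 * D * q := by positivity
    nlinarith only [this, ht0]
  obtain ⟨N, hN⟩ : ∃ N : ℕ, N = ⌊16 * ((t : ℝ) + 1) * (m : ℝ) ^ 2 / a0⌋₊ + 1 := ⟨_, rfl⟩
  have hN1 : 16 * ((t : ℝ) + 1) * (m : ℝ) ^ 2 / a0 < N := by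
    rw [hN]
    push_cast
    exact Nat.lt_floor_add_one _
  have hN2 : (N : ℝ) ≤ C1 * (m : ℝ) ^ 2 := by
    have h1 : (⌊16 * ((t : ℝ) + 1) * (m : ℝ) ^ 2 / a0⌋₊ : ℝ) ≤
        16 * ((t : ℝ) + 1) * (m : ℝ) ^ 2 / a0 := Nat.floor_le (by positivity)
    have h2 : (1 : ℝ) ≤ (m : ℝ) ^ 2 := one_le_pow₀ (by linarith only [hm2r])
    rw [hN, hC1]
    push_cast
    have h3 : (16 * ((t : ℝ) + 1) / a0 + 1) * (m : ℝ) ^ 2 =
        16 * ((t : ℝ) + 1) * (m : ℝ) ^ 2 / a0 + (m : ℝ) ^ 2 := by ring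
    rw [h3]
    linarith only [h1, h2]
  have hN0 : (0 : ℝ) < N := by
    have : 0 ≤ 16 * ((t : ℝ) + 1) * (m : ℝ) ^ 2 / a0 := by positivity
    linarith only [this, hN1]
  have hNδ : 2 * m * D < N * δc := by
    have h1 := mul_lt_mul_of_pos_right hN1 hδc0
    have h2 : 16 * ((t : ℝ) + 1) * (m : ℝ) ^ 2 / a0 * δc = 2 * m * D := by
      rw [hδc]
      have h3 : 16 * ((t : ℝ) + 1) * (m : ℝ) ^ 2 / a0 * (a0 * D * q / (8 * ((t : ℝ) + 1))) =
          2 * m * D * (q * m) := by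
        field_simp
        ring
      rw [h3, hqm, mul_one]
    rw [h2] at h1
    exact h1
  obtain ⟨A, hA1, hA2, hA3, hA4⟩ := hCE (Fin m → ℕ) U S F δc N hδc0 hUne (by
    intro p hp a ha
    obtain ⟨h1, h2⟩ := hFub p hp a ha
    refine ⟨h1, lt_of_le_of_lt h2 (lt_of_le_of_lt ?_ hNδ)⟩
    have h3 : 2 * D ≤ m * D := mul_le_mul_of_nonneg_right hm2r hD.le
    linarith only [h3, hεD2, hD])
  -- Siegel
  have hβv := prod_ineq hm1 Lf (fun i => (n i : ℝ)) C hC hC64
    (fun i hi => lt_of_lt_of_le (by norm_num) (hB ⟨i, hi⟩).1)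
    (fun i hi => (hA ⟨i, hi⟩).2.1)
    (fun i hi => cmono i (i + 1) (by omega) hi) (by rw [hLf]; exact hcon)
  have hprod1 : ∏ i : Fin m, (dif Lf i * (n i : ℝ)) = ∏ i, (w i * nr i) :=
    Finset.prod_congr rfl fun i _ => by rw [hwi, hnri]
  have hprod2 : ∏ i : Fin m, ((1 - C) * ((n i : ℝ) * Lf i) - 2 * (n i : ℝ)) = ∏ i, β i :=
    Finset.prod_congr rfl fun i _ => by rw [hβi, hnri, hLi]
  rw [hprod1, hprod2] at hβv
  have hAB : 2 * B.card ≤ A.card := by
    have h1 : 2 * (B.card : ℝ) ≤ A.card := by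
      refine count_ineq hm1 β (fun i => w i * nr i) T Δ (B.card : ℝ) (A.card : ℝ) (U.card : ℝ)
        ((N : ℝ) ^ t) (Nat.cast_nonneg _) (pow_pos hN0 t) (fun i => mul_pos (hw0 i) (hn0 i)) ?_ hB2
        hU3 ?_ ?_ ?_
      · have : 0 ≤ ∑ i, β i := Finset.sum_nonneg fun i _ => (hβ0 i).le
        linarith only [this, hT0]
      · have h2 : ∑ i, β i ≤ ε * D := by
          rw [← hsumh]
          exact Finset.sum_le_sum fun i _ => hβh i
        have h3 : (1 + 1 / (2 * (m : ℝ))) = 1 + q / 2 := by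
          rw [hq]; field_simp
        rw [h3]
        have h4 : (1 + q / 2) * (a0 * D - ε * D) ≤
            (1 + q / 2) * (Δ - ∑ i, w i * nr i) := by
          apply mul_le_mul_of_nonneg_left _ (by positivity)
          rw [hΔ]; linarith only [hwn]
        refine le_trans ?_ h4
        have h5 : T + ∑ i, β i ≤ a0 * D * (1 + q / 4) + ε * D := by rw [hT]; linarith only [h2]
        refine h5.trans ?_
        have h6 : ε * D = (a0 * D) * (q / 100) := by rw [hε]; ring
        rw [h6]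
        obtain ⟨z, hz⟩ : ∃ z : ℝ, z = a0 * D := ⟨_, rfl⟩
        rw [← hz] at haD ⊢
        have h7 := mul_le_mul_of_nonneg_left hq1 (mul_pos haD hq0).le
        nlinarith only [h7, mul_pos haD hq0]
      · refine le_trans ?_ hβv
        apply mul_le_mul_of_nonneg_right _ hvprod.le
        refine le_trans ?_ hmexp
        apply mul_le_mul_of_nonneg_left _ (by norm_num)
        exact pow_le_pow_left₀ hN0.le hN2 t
      · rw [ht]
        exact_mod_cast hA3
    exact_mod_cast h1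
  obtain ⟨c, hc⟩ := hSI m r A B β T (hA1.trans hU1) hA2 hB1 hAB
  obtain ⟨hc1, hc2, hc3, hc4⟩ := id hc
  obtain ⟨ξ, hξ⟩ : ∃ ξ : Fin m → ℚ,
      ξ = fun i : Fin m => ((n i).factorial : ℚ) / (su S (k i) : ℚ) := ⟨_, rfl⟩
  have hexpL : ∀ i j : Fin m, i < j → h i ≤ Real.exp (-(δ * L i)) * h j := by
    intro i j hij
    rw [hhi, hhi, hnri, hnri, hLi, hLi]
    exact chh i j hij j.isLt
  obtain ⟨e, he1, he2⟩ := hroth r ξ c hc1 (fun a ha => hU1 (hA1 (hc2 a ha))) hc3 hr1 (by
    intro i j hij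
    have h1 := hexpL i j hij
    have h2 : Q2 * Real.exp (-(δ * L i)) ≤ 1 := by
      rw [hLi]
      exact exp_small hδ hQ20 (hA i).2.2.2.2.2
    have h3 : 3 / 2 * Real.exp (-(δ * L i)) ≤ ω := by
      rw [hQ2, div_mul_eq_mul_div, div_le_one hω] at h2
      exact h2
    have h4 := hrup j
    have h5 := hrlow i
    have hhj := hh0 j
    have hri : (0 : ℝ) ≤ r i := by positivity
    have h6 : (r j : ℝ) * h j ≤ (ω * r i) * h j := by
      calc (r j : ℝ) * h j ≤ 3 / 2 * D := h4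
        _ ≤ 3 / 2 * ((r i : ℝ) * h i) := by linarith only [h5]
        _ ≤ 3 / 2 * ((r i : ℝ) * (Real.exp (-(δ * L i)) * h j)) := by
            have := mul_le_mul_of_nonneg_left h1 hri
            linarith only [this]
        _ = (3 / 2 * Real.exp (-(δ * L i))) * (r i * h j) := by ring
        _ ≤ ω * (r i * h j) := mul_le_mul_of_nonneg_right h3 (by positivity)
        _ = _ := by ring
    exact le_of_mul_le_mul_right h6 hhj) (by
    intro i
    rw [← hR]
    have h1 : (1 / 2 : ℝ) * ((n i : ℝ) * Real.log (n i)) ≤ Height.logHeight₁ (ξ i) := by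
      rw [hξ]
      have h2 := (hB i).2.2.2
      exact hxH (n i) (by exact_mod_cast h2) (k i)
    have h2 : h i = (n i : ℝ) * Real.log (n i) := by rw [hhi, hnri, hLi, hLf]
    rw [← h2] at h1
    have h3 := mul_le_mul_of_nonneg_left h1 (show (0 : ℝ) ≤ r i by positivity)
    have h4 := hrlow i
    linarith only [h3, h4, hKr])
  -- upper bound
  have hup := hUB m r A β T c e ξ hc (fun i => (hβ0 i).le) (fun i => by
    rw [hξ]
    exact (hnearf i).1)
  rw [← hR] at hup
  -- lower bound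
  obtain ⟨as, has⟩ := hA2
  obtain ⟨E, hE1, hE2⟩ : ∃ E : ℕ → ℕ,
      (∀ p ∈ S, ∀ x : ℕ, (x : ℝ) * Real.log p ≤ F p as + δc → x ≤ E p) ∧
      (∀ p ∈ S, (E p : ℝ) * Real.log p ≤ F p as + δc) := by
    refine ⟨fun p => ⌊(F p as + δc) / Real.log p⌋₊, ?_, ?_⟩
    · intro p hp x hx
      apply Nat.le_floor
      rw [le_div_iff₀ (hlogp p hp)]
      exact hx
    · intro p hp
      have h0 : 0 ≤ (F p as + δc) / Real.log p := by
        have h1 := (hFub p hp as (hA1 has)).1
        have h2 := hlogp p hp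
        positivity
      have h1 := Nat.floor_le h0
      rwa [le_div_iff₀ (hlogp p hp)] at h1
  obtain ⟨G, hG⟩ : ∃ G : Fin m → ℕ, G = fun i : Fin m =>
      ⌊(up (fun j : Fin m => (s j : ℝ) * (n j : ℝ)) i -
        up (fun j : Fin m => (e j : ℝ) * (n j : ℝ)) i) / n i -
        ∑ j ∈ univ.filter (fun j => i < j), (r j : ℝ)⌋₊ := ⟨_, rfl⟩
  obtain ⟨lo, hlo⟩ : ∃ lo : Fin m → ℕ, lo = fun i : Fin m => if i.val = 0 then 1 else n (i.val - 1) :=
    ⟨_, rfl⟩
  have hlow := hLB S hS m r c (fun i : Fin m => n i) lo (fun i : Fin m => k i) e E G (by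
    intro i j hij
    have h1 : j.val ≠ 0 := by
      have := Fin.lt_def.1 hij
      omega
    rw [hlo]
    simp only [h1, if_false]
    have h2 := Fin.lt_def.1 hij
    exact cnmono i (j - 1) (by omega) (by have := j.isLt; omega)) (by
    intro a ha hea
    have haA := hc2 a ha
    constructor
    · intro p hp
      apply hE1 p hp
      have h1 := hA4 p hp a haA as has
      refine le_trans ?_ h1
      rw [hFpa]
      push_cast
      rw [Finset.sum_mul]
      refine Finset.sum_le_sum fun i _ => ?_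
      rw [mul_assoc]
      apply mul_le_mul_of_nonneg_right
      · have h2 : a i - e i ≤ a i := Nat.sub_le _ _
        exact_mod_cast h2
      · have := hlogp p hp
        positivity
    · intro i
      rw [hG]
      have h1 := (hU2 a (hA1 haA)).1 i
      have hab : ∀ i, a i ≤ r i := Pool.Agent.Helper87.FE.mem_box.1 (hU1 (hA1 haA))
      refine G_ok (fun i : Fin m => n i) r s e a (fun i => ?_) i hab hea ?_
      · have := hn100 i i.isLt
        omega
      · rw [hnr] at h1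
        exact h1) (by rw [hξ] at he2; exact he2)
  rw [hξ] at hup
  have hsuE : (0 : ℝ) < su S E := by exact_mod_cast su_pos hS E
  have hcmp := log_compare2 (fun i : Fin m => ((RR (lo i) (n i) : ℕ) : ℝ))
    (fun i => by exact_mod_cast RR_pos _ _) G hsuE R hlow hup
  -- the gain
  have hgain := gain w L nr c0 r s e G (fun i : Fin m => Real.log ((RR (lo i) (n i) : ℕ) : ℝ)) hLsum hn0
    hc0 (by
      intro i
      have h1 := cwlow i i.isLt
      have h2 := (hA i).2.2.1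
      rw [div_le_iff₀ hδ] at h2
      rw [hwi]
      linarith only [h1, h2]) (by
      intro i
      have h1 : w i = Real.log (n i) - Real.log (lo i) := by
        rw [hwi, hlo]
        unfold dif
        by_cases h0 : i.val = 0
        · simp only [h0, if_true, Nat.cast_one, Real.log_one, sub_zero]
          rw [hLf]
        · simp only [h0, if_false]
          rw [hLf]
      rw [h1, hnri]
      have h2 : 1 ≤ lo i := by
        rw [hlo]
        by_cases h0 : i.val = 0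
        · simp [h0]
        · simp only [h0, if_false]
          have := hn100 (i - 1) (by have := i.isLt; omega)
          omega
      have h3 : lo i ≤ n i := by
        rw [hlo]
        by_cases h0 : i.val = 0
        · simp only [h0, if_true]
          have := hn100 0 (by omega)
          omega
        · simp only [h0, if_false]
          exact cnmono (i - 1) i (by omega) i.isLt
      exact hlogR (lo i) (n i) h2 h3) (by
      intro i
      rw [hG, hnr]
      exact (Nat.lt_floor_add_one _).le)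
  have hterm1 := e_bound r e (fun i => nr i * L i) D ε hD hr1 (fun i => by
    have := hrup i
    rw [hhi] at this
    exact this) he1.le
  have hterm2 := c_bound hm1 s nr L D ε c0 hc0 hε0.le hn0 (by
    intro j
    have h1 := hrup j
    have h2 := (hs1 j).1
    have h3 := hh0 j
    rw [← hhi]
    have h4 : (0 : ℝ) ≤ s j := by positivity
    exact (mul_le_mul_of_nonneg_right (by linarith only [h2, h4]) h3.le).trans h1) (by
    intro j
    have h1 := (hA j).2.2.2.1
    rw [div_le_iff₀ hε0] at h1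
    rw [hLi]
    linarith only [h1])
  have hterm3 := w_bound hm1 w nr h r D ε hεD.le hwup hsumh.le (by
    intro i j hij
    have h1 := hexpL i j hij
    have h2 : Q1 * Real.exp (-(δ * L i)) ≤ 1 := by
      rw [hLi]
      exact exp_small hδ hQ10 (hA i).2.2.2.2.1
    have h3 : 3 / 2 * (m : ℝ) ^ 2 * Real.exp (-(δ * L i)) ≤ ε := by
      rw [hQ1, div_mul_eq_mul_div, div_le_one hε0] at h2
      exact h2
    have h4 := hrup j
    have hrj : (0 : ℝ) ≤ r j := by positivity
    calc (m : ℝ) ^ 2 * (h i * r j)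
        ≤ (m : ℝ) ^ 2 * ((Real.exp (-(δ * L i)) * h j) * r j) := by
          apply mul_le_mul_of_nonneg_left _ (by positivity)
          exact mul_le_mul_of_nonneg_right h1 hrj
      _ = (m : ℝ) ^ 2 * Real.exp (-(δ * L i)) * ((r j : ℝ) * h j) := by ring
      _ ≤ (m : ℝ) ^ 2 * Real.exp (-(δ * L i)) * (3 / 2 * D) := by
          apply mul_le_mul_of_nonneg_left h4
          have := Real.exp_pos (-(δ * L i))
          positivity
      _ = (3 / 2 * (m : ℝ) ^ 2 * Real.exp (-(δ * L i))) * D := by ring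
      _ ≤ ε * D := mul_le_mul_of_nonneg_right h3 hD.le)
  -- the cost
  have hcost := cost S hS (fun i : Fin m => k i) as s r w L nr Δ hLsum (hU2 as (hA1 has)).2
    (fun i => (hnearf i).2) (Pool.Agent.Helper87.FE.mem_box.1 (hU1 (hA1 has)))
  rw [← hR] at hcost
  have hEsum : Real.log (su S E : ℝ) ≤
      ∑ p ∈ S, ∑ i : Fin m, (as i : ℝ) * ((k i p : ℝ) * Real.log p) + t * δc := by
    rw [log_su hS]
    have h1 : ∑ p ∈ S, (E p : ℝ) * Real.log p ≤ ∑ p ∈ S, (F p as + δc) :=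
      Finset.sum_le_sum fun p hp => hE2 p hp
    refine h1.trans (le_of_eq ?_)
    rw [Finset.sum_add_distrib, Finset.sum_const, nsmul_eq_mul, ← ht, hF]
  have heβ : ∑ i, (e i : ℝ) * β i ≤ 3 / 2 * (ε * D) := by
    refine le_trans (Finset.sum_le_sum fun i _ => ?_) hterm1
    have h1 := hβh i
    rw [hhi] at h1
    exact mul_le_mul_of_nonneg_left h1 (by positivity)
  have hcmp' : ∑ i : Fin m, (G i : ℝ) * Real.log ((RR (lo i) (n i) : ℕ) : ℝ) -
      Real.log (su S E : ℝ) ≤ (R : ℝ) * Real.log 64 - (T - ∑ i, (e i : ℝ) * β i) := hcmp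
  have hfin : T - Δ ≤ a0 * D * q / 8 + 8 * (ε * D) := by
    linarith only [hcmp', hgain, hterm1, hterm2, hterm3, hcost, hEsum, heβ, hsmallr, hRε, htδc]
  rw [hT, hΔ] at hfin
  have h6 : ε * D = (a0 * D) * (q / 100) := by rw [hε]; ring
  rw [h6] at hfin
  have h7 := mul_pos haD hq0
  have h8 : a0 * D * (1 + q / 4) = a0 * D + a0 * D * q / 4 := by ring
  rw [h8] at hfin
  linarith only [hfin, h7]

end Pool.Agent.Helper43.RP
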