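import Pool.Agent.Helper43.RP.Goals

/-!
# Project RP: lemmas for CORE2
-/

set_option autoImplicit false

open Finset Pool.Agent.Helper22.FSU Pool.Agent.Helper50.FE

namespace Pool.Agent.Helper43.RP

/-- Abel summation -/
theorem abel {m : ℕ} (w y L : Fin m → ℝ)
    (hL : ∀ j, L j = ∑ i ∈ univ.filter (fun i => i ≤ j), w i) :
    ∑ i, w i * up y i = ∑ j, y j * L j := by
  unfold up
  have h1 : ∀ i, w i * ∑ j ∈ univ.filter (fun j => i ≤ j), y j =
      ∑ j, if i ≤ j then w i * y j else 0 := by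
    intro i
    rw [Finset.mul_sum, Finset.sum_filter]
  rw [Finset.sum_congr rfl fun i _ => h1 i, Finset.sum_comm]
  refine Finset.sum_congr rfl fun j _ => ?_
  rw [hL, Finset.mul_sum, Finset.sum_filter]
  refine Finset.sum_congr rfl fun i _ => ?_
  split_ifs
  · ring
  · rfl

theorem up_add {m : ℕ} (y z : Fin m → ℝ) (i : Fin m) :
    up (fun j => y j + z j) i = up y i + up z i := by
  unfold up
  rw [Finset.sum_add_distrib]

theorem up_sub {m : ℕ} (y z : Fin m → ℝ) (i : Fin m) :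
    up (fun j => y j - z j) i = up y i - up z i := by
  unfold up
  rw [Finset.sum_sub_distrib]

theorem up_nonneg {m : ℕ} (y : Fin m → ℝ) (hy : ∀ j, 0 ≤ y j) (i : Fin m) : 0 ≤ up y i :=
  Finset.sum_nonneg fun j _ => hy j

theorem up_le_sum {m : ℕ} (y : Fin m → ℝ) (hy : ∀ j, 0 ≤ y j) (i : Fin m) :
    up y i ≤ ∑ j, y j :=
  Finset.sum_le_sum_of_subset_of_nonneg (Finset.filter_subset _ _) fun j _ _ => hy j

/-- the differences -/
def dif (f : ℕ → ℝ) (i : ℕ) : ℝ := if i = 0 then f 0 else f i - f (i - 1)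

theorem sum_dif (f : ℕ → ℝ) (j : ℕ) : ∑ x ∈ range (j + 1), dif f x = f j := by
  induction j with
  | zero => simp [dif]
  | succ j ih =>
    rw [Finset.sum_range_succ, ih]
    simp [dif]

theorem sum_dif_fin {m : ℕ} (f : ℕ → ℝ) (j : Fin m) :
    ∑ i ∈ univ.filter (fun i : Fin m => i ≤ j), dif f i = f j := by
  rw [← sum_dif f j, Finset.sum_filter]
  have h1 : ∑ i : Fin m, (if i ≤ j then dif f i else 0) =
      ∑ x ∈ range m, (if x ≤ (j : ℕ) then dif f x else 0) := by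
    rw [← Fin.sum_univ_eq_sum_range (fun x => if x ≤ (j : ℕ) then dif f x else 0)]
    exact Finset.sum_congr rfl fun i _ => by simp only [Fin.le_def]
  rw [h1, ← Finset.sum_filter]
  congr 1
  ext x
  have := j.isLt
  simp only [Finset.mem_filter, Finset.mem_range]
  omega

/-- the choice of `m` -/
theorem exM (t : ℕ) (C C1 : ℝ) (hC : 0 < C) (hC1 : 1 ≤ C1) :
    ∃ m : ℕ, 2 ≤ m ∧ 4 * (C1 * (m : ℝ) ^ 2) ^ t ≤ Real.exp (3 / 2 * C * m) := by
  have h1 := Real.tendsto_pow_mul_exp_neg_atTop_nhds_zero (2 * t)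
  have h2 : Filter.Tendsto (fun m : ℕ => 3 / 2 * C * (m : ℝ)) Filter.atTop Filter.atTop :=
    Filter.Tendsto.const_mul_atTop (by positivity) tendsto_natCast_atTop_atTop
  have h3 := h1.comp h2
  have h4 : (0 : ℝ) < (3 / 2 * C) ^ (2 * t) / (4 * C1 ^ t) := by positivity
  have h5 := (h3.eventually (gt_mem_nhds h4)).and (Filter.eventually_ge_atTop 2)
  obtain ⟨m, hm, hm2⟩ := h5.exists
  refine ⟨m, hm2, ?_⟩
  have h6 : (3 / 2 * C * (m : ℝ)) ^ (2 * t) * Real.exp (-(3 / 2 * C * (m : ℝ))) <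
      (3 / 2 * C) ^ (2 * t) / (4 * C1 ^ t) := hm
  rw [lt_div_iff₀ (by positivity), Real.exp_neg, mul_pow] at h6
  have h7 : (0 : ℝ) < (3 / 2 * C) ^ (2 * t) := by positivity
  have h8 : (0 : ℝ) < Real.exp (3 / 2 * C * (m : ℝ)) := Real.exp_pos _
  have h9 : (3 / 2 * C) ^ (2 * t) * ((m : ℝ) ^ (2 * t) * (4 * C1 ^ t)) <
      (3 / 2 * C) ^ (2 * t) * Real.exp (3 / 2 * C * (m : ℝ)) := by
    have h10 := mul_lt_mul_of_pos_right h6 h8
    calc (3 / 2 * C) ^ (2 * t) * ((m : ℝ) ^ (2 * t) * (4 * C1 ^ t))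
        = (3 / 2 * C) ^ (2 * t) * (m : ℝ) ^ (2 * t) * (Real.exp (3 / 2 * C * (m : ℝ)))⁻¹ *
            (4 * C1 ^ t) * Real.exp (3 / 2 * C * (m : ℝ)) := by
          field_simp
      _ < _ := h10
  have h10 := lt_of_mul_lt_mul_left h9 h7.le
  calc 4 * (C1 * (m : ℝ) ^ 2) ^ t = (m : ℝ) ^ (2 * t) * (4 * C1 ^ t) := by
        rw [mul_pow, ← pow_mul]; ring
    _ ≤ _ := h10.le

theorem one_add_pow_le {m : ℕ} (hm : 1 ≤ m) : (1 + 1 / (2 * (m : ℝ))) ^ m ≤ 2 := by
  have hm0 : (0 : ℝ) < m := by exact_mod_cast hm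
  have h1 : 1 + 1 / (2 * (m : ℝ)) ≤ Real.exp (1 / (2 * (m : ℝ))) := by
    have := Real.add_one_le_exp (1 / (2 * (m : ℝ)))
    linarith
  have h2 : (1 + 1 / (2 * (m : ℝ))) ^ m ≤ Real.exp (1 / (2 * (m : ℝ))) ^ m :=
    pow_le_pow_left₀ (by positivity) h1 m
  rw [← Real.exp_nat_mul] at h2
  have h3 : (m : ℝ) * (1 / (2 * (m : ℝ))) = 1 / 2 := by field_simp
  rw [h3] at h2
  have h4 : Real.exp (1 / 2) ≤ 2 := by
    have h5 := Real.exp_one_lt_d9
    have h6 : Real.exp (1 / 2) * Real.exp (1 / 2) = Real.exp 1 := by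
      rw [← Real.exp_add]; norm_num
    nlinarith [Real.exp_pos (1 / 2)]
  linarith

/-- more points than conditions -/
theorem count_ineq {m : ℕ} (hm : 1 ≤ m) (β v : Fin m → ℝ) (T Δ : ℝ) (B A U Nt : ℝ)
    (hB0 : 0 ≤ B) (hNt : 0 < Nt) (hv : ∀ i, 0 < v i) (hTβ : 0 ≤ T + ∑ i, β i)
    (hB : B * ((m.factorial : ℝ) * ∏ i, β i) ≤ (T + ∑ i, β i) ^ m)
    (hU : (Δ - ∑ i, v i) ^ m ≤ U * ((m.factorial : ℝ) * ∏ i, v i))
    (hr : T + ∑ i, β i ≤ (1 + 1 / (2 * (m : ℝ))) * (Δ - ∑ i, v i))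
    (hβv : 4 * Nt * ∏ i, v i ≤ ∏ i, β i) (hA : U ≤ A * Nt) : 2 * B ≤ A := by
  obtain ⟨P, hP⟩ : ∃ P : ℝ, P = ∏ i, v i := ⟨_, rfl⟩
  obtain ⟨Q, hQ⟩ : ∃ Q : ℝ, Q = ∏ i, β i := ⟨_, rfl⟩
  obtain ⟨F, hF⟩ : ∃ F : ℝ, F = (m.factorial : ℝ) := ⟨_, rfl⟩
  have hP0 : 0 < P := by rw [hP]; exact Finset.prod_pos fun i _ => hv i
  have hF0 : 0 < F := by rw [hF]; exact_mod_cast m.factorial_pos
  rw [← hQ, ← hF] at hB
  rw [← hP, ← hF] at hU
  rw [← hP, ← hQ] at hβv
  have h1 : (T + ∑ i, β i) ^ m ≤ 2 * (Δ - ∑ i, v i) ^ m := by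
    have h2 := pow_le_pow_left₀ hTβ hr m
    rw [mul_pow] at h2
    have h3 : 0 ≤ Δ - ∑ i, v i := by
      have h4 : 0 ≤ (1 + 1 / (2 * (m : ℝ))) * (Δ - ∑ i, v i) := hTβ.trans hr
      have h5 : 0 < 1 + 1 / (2 * (m : ℝ)) := by positivity
      exact (mul_nonneg_iff_of_pos_left h5).mp h4
    exact h2.trans (mul_le_mul_of_nonneg_right (one_add_pow_le hm) (by positivity))
  have h2 : B * (F * (4 * Nt * P)) ≤ B * (F * Q) := by
    apply mul_le_mul_of_nonneg_left _ hB0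
    exact mul_le_mul_of_nonneg_left hβv hF0.le
  have h3 : U * (F * P) ≤ A * Nt * (F * P) :=
    mul_le_mul_of_nonneg_right hA (by positivity)
  have h4 : (2 * B) * (2 * Nt * F * P) ≤ A * (2 * Nt * F * P) := by nlinarith
  exact le_of_mul_le_mul_right h4 (by positivity)

/-- the degrees -/
theorem degs {m : ℕ} (h : Fin m → ℝ) (hh : ∀ i, 0 < h i) (ε : ℝ) (hε : 0 < ε) (hε1 : ε ≤ 1 / 2)
    (i0 : Fin m) :
    ∃ (D : ℝ) (r : Fin m → ℕ), 0 < D ∧ ∑ i, h i = ε * D ∧ (∀ i, h i ≤ ε * D) ∧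
      (∀ i, 1 ≤ r i) ∧ (∀ i, D ≤ r i * h i) ∧ (∀ i, r i * h i ≤ 3 / 2 * D) := by
  have hs0 : 0 < ∑ i, h i := Finset.sum_pos (fun i _ => hh i) ⟨i0, Finset.mem_univ _⟩
  have hle : ∀ i, h i ≤ ∑ j, h j := fun i =>
    Finset.single_le_sum (f := h) (fun j _ => (hh j).le) (Finset.mem_univ i)
  have hD : 0 < (∑ i, h i) / ε := by positivity
  have hεD : ε * ((∑ i, h i) / ε) = ∑ i, h i := by field_simp
  refine ⟨(∑ i, h i) / ε, fun i => ⌈(∑ j, h j) / ε / h i⌉₊, hD, hεD.symm, ?_, ?_, ?_, ?_⟩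
  · intro i
    rw [hεD]
    exact hle i
  · intro i
    have := hh i
    exact Nat.one_le_iff_ne_zero.2 (Nat.ceil_pos.2 (by positivity)).ne'
  · intro i
    have h1 := Nat.le_ceil ((∑ j, h j) / ε / h i)
    rw [div_le_iff₀ (hh i)] at h1
    exact h1
  · intro i
    have h0 : 0 ≤ (∑ j, h j) / ε / h i := by
      have := hh i
      positivity
    have h1 := (Nat.ceil_lt_add_one h0).le
    have h2 := mul_le_mul_of_nonneg_right h1 (hh i).le
    have h3 : ((∑ j, h j) / ε / h i + 1) * h i = (∑ j, h j) / ε + h i := by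
      have := (hh i).ne'
      field_simp
    rw [h3] at h2
    have h4 := hle i
    have h5 : ε * ((∑ i, h i) / ε) ≤ 1 / 2 * ((∑ i, h i) / ε) :=
      mul_le_mul_of_nonneg_right hε1 hD.le
    rw [hεD] at h5
    linarith

/-- the product inequality -/
theorem prod_ineq {m : ℕ} (hm : 1 ≤ m) (L nr : ℕ → ℝ) (C : ℝ) (hC : 0 < C) (hC1 : C ≤ 1 / 64)
    (hn : ∀ i, i < m → 0 < nr i) (hL : ∀ i, i < m → 16 / C ≤ L i)
    (hw : ∀ i, i + 1 < m → L i ≤ L (i + 1))
    (hs : 3 * C * m ≤ ∑ i ∈ range (m - 1), L i / L (i + 1)) :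
    Real.exp (3 / 2 * C * m) * ∏ i : Fin m, (dif L i * nr i) ≤
      ∏ i : Fin m, ((1 - C) * (nr i * L i) - 2 * nr i) := by
  have hL0 : ∀ i, i < m → 0 < L i := fun i hi => lt_of_lt_of_le (by positivity) (hL i hi)
  obtain ⟨u, hu⟩ : ∃ u : ℕ → ℝ, u = fun i => if i = 0 then 0 else L (i - 1) / L i := ⟨_, rfl⟩
  have hus : ∑ i : Fin m, u i = ∑ i ∈ range (m - 1), L i / L (i + 1) := by
    rw [Fin.sum_univ_eq_sum_range (fun i => u i)]
    obtain ⟨m', rfl⟩ : ∃ m', m = m' + 1 := ⟨m - 1, by omega⟩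
    rw [Finset.sum_range_succ', hu]
    simp
  have hdif : ∀ i, i < m → dif L i = L i * (1 - u i) := by
    intro i hi
    have := (hL0 i hi).ne'
    rw [hu]
    unfold dif
    by_cases h0 : i = 0
    · simp [h0]
    · simp only [h0, if_false]
      field_simp
  have hu1 : ∀ i, i < m → u i ≤ 1 := by
    intro i hi
    rw [hu]
    by_cases h0 : i = 0
    · simp [h0]
    · simp only [h0, if_false]
      rw [div_le_one (hL0 i hi)]
      have h1 := hw (i - 1) (by omega)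
      rwa [show i - 1 + 1 = i by omega] at h1
  have hterm : ∀ i : Fin m, (Real.exp (-(3 / 2) * C + u i)) * (dif L i * nr i) ≤
      (1 - C) * (nr i * L i) - 2 * nr i := by
    intro i
    have hLi := hL i i.isLt
    have hLp := hL0 i i.isLt
    have hni := hn i i.isLt
    have h1 : 1 - u i ≤ Real.exp (-(u i)) := by
      have := Real.add_one_le_exp (-(u i))
      linarith
    have h2 : Real.exp (-(3 / 2) * C) ≤ 1 - 9 / 8 * C := by
      have h3 : Real.exp (-(3 / 2) * C) = (Real.exp (3 / 2 * C))⁻¹ := by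
        rw [← Real.exp_neg]; congr 1; ring
      rw [h3]
      have h4 : 1 + 3 / 2 * C ≤ Real.exp (3 / 2 * C) := by
        have := Real.add_one_le_exp (3 / 2 * C)
        linarith
      have h5 : (Real.exp (3 / 2 * C))⁻¹ ≤ (1 + 3 / 2 * C)⁻¹ :=
        inv_anti₀ (by positivity) h4
      refine h5.trans ?_
      rw [inv_le_iff_one_le_mul₀ (by positivity)]
      nlinarith
    have h3 : 2 ≤ C / 8 * L i := by
      rw [div_le_iff₀ hC] at hLi
      linarith
    have h4 : Real.exp (-(3 / 2) * C + u i) * dif L i ≤ Real.exp (-(3 / 2) * C) * L i := by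
      rw [hdif i i.isLt, Real.exp_add]
      have h5 : Real.exp (u i) * (1 - u i) ≤ 1 := by
        calc Real.exp (u i) * (1 - u i) ≤ Real.exp (u i) * Real.exp (-(u i)) :=
              mul_le_mul_of_nonneg_left h1 (Real.exp_pos _).le
          _ = 1 := by rw [← Real.exp_add]; simp
      calc Real.exp (-(3 / 2) * C) * Real.exp (u i) * (L i * (1 - u i))
          = Real.exp (-(3 / 2) * C) * L i * (Real.exp (u i) * (1 - u i)) := by ring
        _ ≤ Real.exp (-(3 / 2) * C) * L i * 1 :=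
            mul_le_mul_of_nonneg_left h5 (by positivity)
        _ = _ := by ring
    have h6 : Real.exp (-(3 / 2) * C) * L i ≤ (1 - 9 / 8 * C) * L i :=
      mul_le_mul_of_nonneg_right h2 hLp.le
    have h7 : Real.exp (-(3 / 2) * C + u i) * dif L i ≤ (1 - C) * L i - 2 := by nlinarith
    calc Real.exp (-(3 / 2) * C + u i) * (dif L i * nr i)
        = (Real.exp (-(3 / 2) * C + u i) * dif L i) * nr i := by ring
      _ ≤ ((1 - C) * L i - 2) * nr i := mul_le_mul_of_nonneg_right h7 hni.le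
      _ = _ := by ring
  have hd0 : ∀ i : Fin m, 0 ≤ dif L i * nr i := by
    intro i
    rw [hdif i i.isLt]
    have := hu1 i i.isLt
    have h2 := hL0 i i.isLt
    have h3 := hn i i.isLt
    have h4 : 0 ≤ 1 - u i := by linarith
    positivity
  have h1 : ∏ i : Fin m, (Real.exp (-(3 / 2) * C + u i) * (dif L i * nr i)) ≤
      ∏ i : Fin m, ((1 - C) * (nr i * L i) - 2 * nr i) :=
    Finset.prod_le_prod (fun i _ => mul_nonneg (Real.exp_pos _).le (hd0 i)) fun i _ => hterm i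
  refine le_trans ?_ h1
  have h2 : ∏ i : Fin m, (Real.exp (-(3 / 2) * C + u i) * (dif L i * nr i)) =
      Real.exp (∑ i : Fin m, (-(3 / 2) * C + u i)) * ∏ i : Fin m, (dif L i * nr i) := by
    rw [Real.exp_sum, ← Finset.prod_mul_distrib]
  rw [h2]
  apply mul_le_mul_of_nonneg_right _ (Finset.prod_nonneg fun i _ => hd0 i)
  apply Real.exp_le_exp.2
  rw [Finset.sum_add_distrib, hus, Finset.sum_const, Finset.card_univ, Fintype.card_fin,
    nsmul_eq_mul]
  linarith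

end Pool.Agent.Helper43.RP
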