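import Pool.Agent.Helper43.RP.CoreA

/-!
# Project RP: lemmas for CORE2, second part
-/

set_option autoImplicit false

open Finset Pool.Agent.Helper22.FSU Pool.Agent.Helper50.FE

namespace Pool.Agent.Helper43.RP

/-- the exponent of the rough part number `i` is available -/
theorem G_ok {m : ℕ} (n r s e a : Fin m → ℕ) (hn : ∀ i, 0 < n i) (i : Fin m)
    (har : ∀ j, a j ≤ r j) (hea : ∀ j, e j ≤ a j)
    (hu : 0 ≤ up (fun j => ((a j : ℝ) - s j) * n j) i) :
    ⌊(up (fun j => (s j : ℝ) * n j) i - up (fun j => (e j : ℝ) * n j) i) / n i -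
      ∑ j ∈ univ.filter (fun j => i < j), (r j : ℝ)⌋₊ ≤
      ∑ j ∈ univ.filter (fun j => i ≤ j), (a j - e j) * (n j / n i) := by
  apply Nat.floor_le_of_le
  rw [Nat.cast_sum]
  have hni : (0 : ℝ) < n i := by exact_mod_cast hn i
  have hterm : ∀ j ∈ univ.filter (fun j => i ≤ j),
      ((a j : ℝ) - e j) * ((n j : ℝ) / n i) - (if i < j then (r j : ℝ) else 0) ≤
        (((a j - e j) * (n j / n i) : ℕ) : ℝ) := by
    intro j hj
    have hij : i ≤ j := (Finset.mem_filter.1 hj).2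
    rw [Nat.cast_mul, Nat.cast_sub (hea j)]
    have h0 : (0 : ℝ) ≤ (a j : ℝ) - e j := by
      have : (e j : ℝ) ≤ a j := by exact_mod_cast hea j
      linarith
    have h0r : (a j : ℝ) - e j ≤ r j := by
      have h1 : (a j : ℝ) ≤ r j := by exact_mod_cast har j
      have h2 : (0 : ℝ) ≤ e j := by positivity
      linarith
    rcases lt_or_eq_of_le hij with h | h
    · rw [if_pos h]
      have h1 : (n j : ℝ) / n i - 1 ≤ ((n j / n i : ℕ) : ℝ) := by
        have h3 : (n j : ℝ) / n i < ((n j / n i : ℕ) : ℝ) + 1 := by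
          rw [div_lt_iff₀ hni]
          have h4 : n j < (n j / n i + 1) * n i := by
            have h5 := Nat.div_add_mod (n j) (n i)
            have h6 := Nat.mod_lt (n j) (hn i)
            nlinarith
          exact_mod_cast h4
        linarith
      have h2 := mul_le_mul_of_nonneg_left h1 h0
      nlinarith
    · subst h
      rw [if_neg (lt_irrefl _), Nat.div_self (hn i), div_self hni.ne']
      simp
  refine le_trans ?_ (Finset.sum_le_sum hterm)
  rw [Finset.sum_sub_distrib]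
  have h2 : ∑ j ∈ univ.filter (fun j => i ≤ j), (if i < j then (r j : ℝ) else 0) =
      ∑ j ∈ univ.filter (fun j => i < j), (r j : ℝ) := by
    rw [← Finset.sum_filter, Finset.filter_filter]
    refine Finset.sum_congr ?_ fun _ _ => rfl
    ext j
    simp only [Finset.mem_filter, Finset.mem_univ, true_and]
    exact ⟨fun h => h.2, fun h => ⟨h.le, h⟩⟩
  have h3 : ∑ j ∈ univ.filter (fun j => i ≤ j), ((a j : ℝ) - e j) * ((n j : ℝ) / n i) =
      (up (fun j => ((a j : ℝ) - s j) * n j) i + up (fun j => (s j : ℝ) * n j) i -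
        up (fun j => (e j : ℝ) * n j) i) / n i := by
    unfold up
    rw [← Finset.sum_add_distrib, ← Finset.sum_sub_distrib, Finset.sum_div]
    refine Finset.sum_congr rfl fun j _ => ?_
    have := hni.ne'
    field_simp
    ring
  rw [h2, h3]
  have h4 : (up (fun j => (s j : ℝ) * n j) i - up (fun j => (e j : ℝ) * n j) i) / n i ≤
      (up (fun j => ((a j : ℝ) - s j) * n j) i + up (fun j => (s j : ℝ) * n j) i -
        up (fun j => (e j : ℝ) * n j) i) / n i := by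
    apply div_le_div_of_nonneg_right _ hni.le
    linarith
  linarith

/-- the gain -/
theorem gain {m : ℕ} (w L nr : Fin m → ℝ) (c0 : ℝ) (r s e G : Fin m → ℕ) (lR : Fin m → ℝ)
    (hL : ∀ j, L j = ∑ i ∈ univ.filter (fun i => i ≤ j), w i)
    (hn : ∀ i, 0 < nr i) (hc0 : 0 ≤ c0) (hw : ∀ i, c0 ≤ w i)
    (hlR : ∀ i, nr i * (w i - c0) ≤ lR i)
    (hG : ∀ i, (up (fun j => (s j : ℝ) * nr j) i - up (fun j => (e j : ℝ) * nr j) i) / nr i -
      ∑ j ∈ univ.filter (fun j => i < j), (r j : ℝ) ≤ (G i : ℝ) + 1) :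
    ∑ j, (s j : ℝ) * (nr j * L j) - ∑ j, (e j : ℝ) * (nr j * L j)
      - c0 * ∑ i, up (fun j => (s j : ℝ) * nr j) i
      - ∑ i, w i * nr i * (1 + ∑ j ∈ univ.filter (fun j => i < j), (r j : ℝ)) ≤
      ∑ i, (G i : ℝ) * lR i := by
  have h1 : ∑ j, (s j : ℝ) * (nr j * L j) = ∑ i, w i * up (fun j => (s j : ℝ) * nr j) i := by
    rw [abel w _ L hL]
    exact Finset.sum_congr rfl fun j _ => by ring
  have h2 : ∑ j, (e j : ℝ) * (nr j * L j) = ∑ i, w i * up (fun j => (e j : ℝ) * nr j) i := by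
    rw [abel w _ L hL]
    exact Finset.sum_congr rfl fun j _ => by ring
  rw [h1, h2, Finset.mul_sum, ← Finset.sum_sub_distrib, ← Finset.sum_sub_distrib,
    ← Finset.sum_sub_distrib]
  refine Finset.sum_le_sum fun i _ => ?_
  have hGi := hG i
  have hY0 : 0 ≤ up (fun j => (e j : ℝ) * nr j) i := up_nonneg _ (fun j => by
    have := hn j
    positivity) i
  obtain ⟨X, hX⟩ : ∃ X : ℝ, X = up (fun j => (s j : ℝ) * nr j) i := ⟨_, rfl⟩
  obtain ⟨Y, hY⟩ : ∃ Y : ℝ, Y = up (fun j => (e j : ℝ) * nr j) i := ⟨_, rfl⟩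
  obtain ⟨R, hR⟩ : ∃ R : ℝ, R = ∑ j ∈ univ.filter (fun j => i < j), (r j : ℝ) := ⟨_, rfl⟩
  have hR0 : 0 ≤ R := by rw [hR]; positivity
  rw [← hX, ← hY, ← hR] at hGi
  rw [← hY] at hY0
  rw [← hX, ← hY, ← hR]
  have hni := hn i
  have h3 : X - Y - nr i * R - nr i ≤ (G i : ℝ) * nr i := by
    have h4 := mul_le_mul_of_nonneg_right hGi hni.le
    have h5 : ((X - Y) / nr i - R) * nr i = X - Y - nr i * R := by
      have := hni.ne'
      field_simp
    rw [h5] at h4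
    linarith
  have hwc : 0 ≤ w i - c0 := by have := hw i; linarith
  have h4 := mul_le_mul_of_nonneg_right h3 hwc
  have h5 : (G i : ℝ) * nr i * (w i - c0) ≤ (G i : ℝ) * lR i := by
    rw [mul_assoc]
    exact mul_le_mul_of_nonneg_left (hlR i) (by positivity)
  have h6 : 0 ≤ c0 * Y := by positivity
  have h7 : 0 ≤ c0 * (nr i * R) := by positivity
  have h8 : 0 ≤ c0 * nr i := by positivity
  nlinarith

theorem e_bound {m : ℕ} (r e : Fin m → ℕ) (h : Fin m → ℝ) (D ε : ℝ) (hD : 0 < D)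
    (hr : ∀ i, 1 ≤ r i) (hrh : ∀ i, (r i : ℝ) * h i ≤ 3 / 2 * D) (he : wt r e ≤ ε) :
    ∑ j, (e j : ℝ) * h j ≤ 3 / 2 * (ε * D) := by
  calc ∑ j, (e j : ℝ) * h j ≤ ∑ j, ((e j : ℝ) / (r j)) * (3 / 2 * D) := by
        refine Finset.sum_le_sum fun j _ => ?_
        have hrj : (0 : ℝ) < r j := by exact_mod_cast hr j
        have h1 : (e j : ℝ) * h j = ((e j : ℝ) / (r j)) * ((r j : ℝ) * h j) := by
          have := hrj.ne'
          field_simp
        rw [h1]
        exact mul_le_mul_of_nonneg_left (hrh j) (by positivity)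
    _ = wt r e * (3 / 2 * D) := by rw [← Finset.sum_mul]; rfl
    _ ≤ ε * (3 / 2 * D) := mul_le_mul_of_nonneg_right he (by positivity)
    _ = _ := by ring

theorem c_bound {m : ℕ} (hm : 1 ≤ m) (s : Fin m → ℕ) (nr L : Fin m → ℝ) (D ε c0 : ℝ)
    (hc0 : 0 ≤ c0) (hε : 0 ≤ ε) (hn : ∀ i, 0 < nr i)
    (hs : ∀ j, (s j : ℝ) * (nr j * L j) ≤ 3 / 2 * D)
    (hL : ∀ j, 3 / 2 * c0 * (m : ℝ) ^ 2 ≤ ε * L j) :
    c0 * ∑ i, up (fun j => (s j : ℝ) * nr j) i ≤ ε * D := by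
  have hm0 : (0 : ℝ) < m := by exact_mod_cast hm
  have hsn : ∀ j, 0 ≤ (s j : ℝ) * nr j := fun j => by
    have := hn j
    positivity
  have h1 : ∀ j, c0 * (m : ℝ) ^ 2 * ((s j : ℝ) * nr j) ≤ ε * D := by
    intro j
    have h2 := mul_le_mul_of_nonneg_right (hL j) (hsn j)
    have h3 := mul_le_mul_of_nonneg_left (hs j) hε
    nlinarith
  have h2 : ∑ i, up (fun j => (s j : ℝ) * nr j) i ≤ m * ∑ j, (s j : ℝ) * nr j := by
    calc ∑ i, up (fun j => (s j : ℝ) * nr j) i ≤ ∑ _i : Fin m, ∑ j, (s j : ℝ) * nr j :=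
          Finset.sum_le_sum fun i _ => up_le_sum _ hsn i
      _ = m * ∑ j, (s j : ℝ) * nr j := by simp
  have h3 : ∑ j, c0 * (m : ℝ) ^ 2 * ((s j : ℝ) * nr j) ≤ m * (ε * D) := by
    calc ∑ j, c0 * (m : ℝ) ^ 2 * ((s j : ℝ) * nr j) ≤ ∑ _j : Fin m, ε * D :=
          Finset.sum_le_sum fun j _ => h1 j
      _ = m * (ε * D) := by simp
  rw [← Finset.mul_sum] at h3
  have h4 : (m : ℝ) * (c0 * ∑ i, up (fun j => (s j : ℝ) * nr j) i) ≤ m * (ε * D) := by
    have h5 := mul_le_mul_of_nonneg_left h2 hc0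
    have h6 := mul_le_mul_of_nonneg_left h5 hm0.le
    refine h6.trans (le_trans (le_of_eq ?_) h3)
    ring
  exact le_of_mul_le_mul_left h4 hm0

theorem w_bound {m : ℕ} (hm : 1 ≤ m) (w nr h : Fin m → ℝ) (r : Fin m → ℕ) (D ε : ℝ)
    (hεD : 0 ≤ ε * D) (hw : ∀ i, w i * nr i ≤ h i)
    (hsum : ∑ i, h i ≤ ε * D)
    (hij : ∀ i j, i < j → (m : ℝ) ^ 2 * (h i * r j) ≤ ε * D) :
    ∑ i, w i * nr i * (1 + ∑ j ∈ univ.filter (fun j => i < j), (r j : ℝ)) ≤ 2 * (ε * D) := by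
  have hm0 : (0 : ℝ) < m := by exact_mod_cast hm
  have h1 : ∀ i, (m : ℝ) ^ 2 * ∑ j ∈ univ.filter (fun j => i < j), h i * (r j : ℝ) ≤
      m * (ε * D) := by
    intro i
    rw [Finset.mul_sum]
    calc ∑ j ∈ univ.filter (fun j => i < j), (m : ℝ) ^ 2 * (h i * (r j : ℝ))
        ≤ ∑ _j ∈ univ.filter (fun j => i < j), ε * D :=
          Finset.sum_le_sum fun j hj => hij i j (Finset.mem_filter.1 hj).2
      _ = ((univ.filter (fun j => i < j)).card : ℝ) * (ε * D) := by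
          rw [Finset.sum_const, nsmul_eq_mul]
      _ ≤ m * (ε * D) := by
          apply mul_le_mul_of_nonneg_right _ hεD
          have h2 := Finset.card_filter_le (univ : Finset (Fin m)) (fun j => i < j)
          rw [Finset.card_univ, Fintype.card_fin] at h2
          exact_mod_cast h2
  have h2 : (m : ℝ) ^ 2 * ∑ i, ∑ j ∈ univ.filter (fun j => i < j), h i * (r j : ℝ) ≤
      (m : ℝ) ^ 2 * (ε * D) := by
    rw [Finset.mul_sum]
    calc ∑ i, (m : ℝ) ^ 2 * ∑ j ∈ univ.filter (fun j => i < j), h i * (r j : ℝ)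
        ≤ ∑ _i : Fin m, m * (ε * D) := Finset.sum_le_sum fun i _ => h1 i
      _ = (m : ℝ) ^ 2 * (ε * D) := by
          rw [Finset.sum_const, Finset.card_univ, Fintype.card_fin, nsmul_eq_mul]; ring
  have h3 := le_of_mul_le_mul_left h2 (by positivity)
  have h4 : ∑ i, w i * nr i * (1 + ∑ j ∈ univ.filter (fun j => i < j), (r j : ℝ)) ≤
      ∑ i, (h i + ∑ j ∈ univ.filter (fun j => i < j), h i * (r j : ℝ)) := by
    refine Finset.sum_le_sum fun i _ => ?_
    have h5 : (0 : ℝ) ≤ 1 + ∑ j ∈ univ.filter (fun j => i < j), (r j : ℝ) := by positivity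
    have h6 := mul_le_mul_of_nonneg_right (hw i) h5
    rw [← Finset.mul_sum]
    linarith
  rw [Finset.sum_add_distrib] at h4
  linarith

theorem r_bound {m : ℕ} (hm : 1 ≤ m) (r : Fin m → ℕ) (h : Fin m → ℝ) (D A κ : ℝ) (hκ : 0 ≤ κ)
    (hrh : ∀ i, (r i : ℝ) * h i ≤ 3 / 2 * D) (hA : ∀ i, 3 / 2 * (m * A) ≤ κ * h i) :
    A * ((∑ i, r i : ℕ) : ℝ) ≤ κ * D := by
  have hm0 : (0 : ℝ) < m := by exact_mod_cast hm
  have h1 : ∀ i, m * (A * (r i : ℝ)) ≤ κ * D := by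
    intro i
    have h2 := mul_le_mul_of_nonneg_right (hA i) (show (0 : ℝ) ≤ r i by positivity)
    have h3 := mul_le_mul_of_nonneg_left (hrh i) hκ
    nlinarith
  have h2 : ∑ i, m * (A * (r i : ℝ)) ≤ m * (κ * D) := by
    calc ∑ i, m * (A * (r i : ℝ)) ≤ ∑ _i : Fin m, κ * D := Finset.sum_le_sum fun i _ => h1 i
      _ = m * (κ * D) := by simp
  rw [← Finset.mul_sum, ← Finset.mul_sum] at h2
  rw [Nat.cast_sum]
  exact le_of_mul_le_mul_left h2 hm0

/-- the cost -/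
theorem cost {m : ℕ} (S : Finset ℕ) (hS : ∀ p ∈ S, Nat.Prime p) (k : Fin m → ℕ → ℕ)
    (a s r : Fin m → ℕ) (w L nr : Fin m → ℝ) (Δ : ℝ)
    (hL : ∀ j, L j = ∑ i ∈ univ.filter (fun i => i ≤ j), w i)
    (h1 : ∑ i, w i * up (fun j => ((a j : ℝ) - s j) * nr j) i ≤ Δ)
    (hk : ∀ i, Real.log (su S (k i) : ℝ) ≤ nr i * L i + 1) (har : ∀ i, a i ≤ r i) :
    ∑ p ∈ S, ∑ i, (a i : ℝ) * ((k i p : ℝ) * Real.log p) ≤
      ∑ j, (s j : ℝ) * (nr j * L j) + Δ + ((∑ i, r i : ℕ) : ℝ) := by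
  rw [Finset.sum_comm]
  have h2 : ∑ i, ∑ p ∈ S, (a i : ℝ) * ((k i p : ℝ) * Real.log p) =
      ∑ i, (a i : ℝ) * Real.log (su S (k i) : ℝ) := by
    refine Finset.sum_congr rfl fun i _ => ?_
    rw [log_su hS, Finset.mul_sum]
  rw [h2]
  have h3 : ∑ i, (a i : ℝ) * Real.log (su S (k i) : ℝ) ≤
      ∑ i, ((a i : ℝ) * (nr i * L i) + (r i : ℝ)) := by
    refine Finset.sum_le_sum fun i _ => ?_
    have h4 := mul_le_mul_of_nonneg_left (hk i) (show (0 : ℝ) ≤ a i by positivity)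
    have h5 : (a i : ℝ) ≤ r i := by exact_mod_cast har i
    linarith
  rw [Finset.sum_add_distrib] at h3
  have h4 : ∑ i, (a i : ℝ) * (nr i * L i) =
      ∑ i, w i * up (fun j => ((a j : ℝ) - s j) * nr j) i + ∑ j, (s j : ℝ) * (nr j * L j) := by
    rw [abel w _ L hL, ← Finset.sum_add_distrib]
    exact Finset.sum_congr rfl fun j _ => by ring
  rw [Nat.cast_sum]
  linarith

end Pool.Agent.Helper43.RP
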