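import Pool.Agent.Helper50.FE.Main

/-!
# Project RP (MP_f5847d_nt): the exceptional integers thin out as the exponent tends to zero

THEOREM T. For every finite set `S` of primes there is `M` such that for every `C` with `0 < C ≤ 1/2`
there is `B` such that for all `2 ≤ Y ≤ X` the number of `n` in `[Y, X]` with
`|n! - ∏ p^(k_p)| ≤ exp(C n log n)` for some exponents is at most
`B + M log(log X / log Y) / log(1/C)`.

So for every `ε > 0` there is `C' > 0` for which the inequality of the question fails for at most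
`ε log log X + O(1)` integers `n ≤ X`. (The theorem on `main`, LogLogExceptions, has for every `C < 1`
a constant `M(C)` in front of `log log X`, which does not become small.)

SKETCH. Take a chain `n 0 < ... < n (m-1)` of exceptional integers with
`(1+δ) log n i ≤ log n (i+1)`; put `L i = log n i`, `w i = L i - L (i-1)` (`w 0 = L 0`),
`h i = n i L i`, degrees `r i = D / h i`, centres `s i = r i / 2`. Auxiliary polynomial
`Σ c_a X^a` with `a` in the region `U`: all `Z i = w i Σ_{j ≥ i} (a j - s j) n j ≥ 0` and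
`Σ Z i ≤ Δ = (δ/16) D`, and in one cell where all the `S`-exponents `Σ a i k i p` are constant up to a
small error; vanishing at `(1,..,1)` to the weighted order `T = Δ (1 + 1/(4m))` with weights
`β i = (1-C) h i - 2 n i`. Number of points `≈ Δ^m/(m! ∏ w i n i)` up to the factor
`(polynomial in m)^(card S)`, number of conditions `≈ T^m/(m! ∏ β i)`; the quotient is at least
`∏ (1-2C) L i / w i ≥ exp(Σ L (i-1)/L i - 3/2 C m)` up to these factors. The point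
`ξ i = n i! / P i` has `|ξ i - 1| ≤ exp(-β i)`. Lower bound of a nonzero value of a divided derivative
of small order (Roth's lemma; the degrees decrease quickly): the primes in `(n (i-1), n i]` divide
`∏ n j!^(a j)` with exponent at least `v_q(n i!) Σ_{j ≥ i} a j n j / n i`, their logarithms add up to
`n i (w i - c0)`, and `Σ w i Σ_{j≥i} a j n j = Σ a j h j` (Abel) is at most `Σ s j h j + Δ` on `U`. So
the value is at least `exp(-Δ - small)`, while it is at most `exp(-T + small)`. Contradiction, so there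
are not enough points: `Σ L (i-1)/L i < 3 C m` for every such chain of `m` (large, depending on `C`)
exceptional integers (CORE2). Counting: CNT2.

`box`, `wt`, `val`: `Pool/Agent/Helper50/FE/Goals.lean`; `su`, `Near`, `fact_lower`, `log_fact_upper`,
`log_su`, `prod_su_pow`, `fact_pow_mul`: `Pool/Agent/Helper22/FSU/*.lean`.
-/

set_option autoImplicit false

open Finset Pool.Agent.Helper22.FSU Pool.Agent.Helper50.FE

namespace Pool.Agent.Helper43.RP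

/-- the coefficients `c` are supported in `A` and the polynomial `Σ c a X^a` vanishes at `(1,...,1)`
to the weighted order `T` with weights `β` -/
def Adm2 {m : ℕ} (r : Fin m → ℕ) (A : Finset (Fin m → ℕ)) (β : Fin m → ℝ) (T : ℝ)
    (c : (Fin m → ℕ) → ℤ) : Prop :=
  (∃ a, c a ≠ 0) ∧ (∀ a, c a ≠ 0 → a ∈ A) ∧ (∀ a, |c a| ≤ 4 ^ (∑ i, r i)) ∧
  (∀ b : Fin m → ℕ, ∑ i, (b i : ℝ) * β i < T →
    ∑ a ∈ box r, c a * ∏ i, (((a i).choose (b i) : ℕ) : ℤ) = 0)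

/-- the sum of `y j` over the `j ≥ i` -/
def up {m : ℕ} (y : Fin m → ℝ) (i : Fin m) : ℝ := ∑ j ∈ Finset.univ.filter (fun j => i ≤ j), y j

/-- the part of `n!` composed of the primes in `(lo, n]` -/
def RR (lo n : ℕ) : ℕ :=
  ∏ q ∈ (Finset.Ioc lo n).filter Nat.Prime, q ^ (n.factorial.factorization q)

/-- RP-SIEG (Siegel's lemma).
PROOF. Adapt `Pool/Agent/Helper88/FE/SIEG.lean` (theorem `goalSIEG`): there `A`, `B` are special subsets
of the box. If `B` is empty: `c = 1` at one point of `A`, `0` elsewhere (no `b` satisfies the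
inequality). Otherwise the matrix with rows in `B`, columns in `A`, entries `∏ C(a i, b i)`, absolute
values at most `2^(Σ r)` (`prod_choose_le`, for `a` in the box and any `b`); exponent
`card B/(card A - card B) ≤ 1`, `card A ≤ 2^(Σ r)` (`card_box_le`). Extend by zero; the sum over the box
is the sum over `A`. -/
def SIEG2 : Prop :=
  ∀ (m : ℕ) (r : Fin m → ℕ) (A B : Finset (Fin m → ℕ)) (β : Fin m → ℝ) (T : ℝ),
    A ⊆ box r → A.Nonempty → (∀ b : Fin m → ℕ, ∑ i, (b i : ℝ) * β i < T → b ∈ B) →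
    2 * B.card ≤ A.card → ∃ c : (Fin m → ℕ) → ℤ, Adm2 r A β T c

/-- RP-NV (Roth's lemma with a small index).
PROOF. As `Pool/Agent/Helper91/FE/NV.lean` (theorem `goalNV`), with `rothLemma m ℚ (ε/2)` in place of
`(1/2)` and `IndGe r ξ ε` in place of `1`: the conclusion of Roth's lemma would be `ε ≤ ε/2`. -/
def NV2 : Prop :=
  ∀ (m : ℕ) (ε : ℝ), 0 < ε → ∃ ω K : ℝ, 0 < ω ∧ 0 < K ∧
    ∀ (r : Fin m → ℕ) (ξ : Fin m → ℚ) (c : (Fin m → ℕ) → ℤ),
      (∃ a, c a ≠ 0) → (∀ a, c a ≠ 0 → a ∈ box r) → (∀ a, |c a| ≤ 4 ^ (∑ i, r i)) →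
      (∀ h, 1 ≤ r h) → (∀ h h' : Fin m, h < h' → (r h' : ℝ) ≤ ω * r h) →
      (∀ h, K * ((∑ i, r i : ℕ) : ℝ) ≤ (r h : ℝ) * Height.logHeight₁ (ξ h)) →
      ∃ e : Fin m → ℕ, wt r e < ε ∧ val r c e ξ ≠ 0

/-- RP-UB (upper bound at a point close to `(1,...,1)`).
PROOF. As `Pool/Agent/Helper87/FE/UB.lean` (`val_eq`, `TT_big`, `TT_le`, `card_box` can be used
directly): `val = Σ_{f ∈ box r} (∏ C(e i + f i, e i) (y i - 1)^(f i)) TT (e + f)`. If `TT (e + f) ≠ 0`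
then `e i + f i ≤ r i` for all `i` and `Σ (e i + f i) β i ≥ T`, so `Σ f i β i ≥ T - Σ e i β i` and
`∏ |y i - 1|^(f i) ≤ exp(-Σ f i β i) ≤ exp(-(T - Σ e i β i))`; binomials `≤ 2^(Σ r)`, `TT ≤ 16^(Σ r)`,
number of `f` at most `2^(Σ r)`. -/
def UB2 : Prop :=
  ∀ (m : ℕ) (r : Fin m → ℕ) (A : Finset (Fin m → ℕ)) (β : Fin m → ℝ) (T : ℝ)
    (c : (Fin m → ℕ) → ℤ) (e : Fin m → ℕ) (y : Fin m → ℚ),
    Adm2 r A β T c → (∀ i, 0 ≤ β i) → (∀ i, |((y i : ℚ) : ℝ) - 1| ≤ Real.exp (-(β i))) →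
    |((val r c e y : ℚ) : ℝ)| ≤ 64 ^ (∑ i, r i) * Real.exp (-(T - ∑ i, (e i : ℝ) * β i))

/-- RP-LB (lower bound of a nonzero value by denominators and common factors).
PROOF. As `Pool/Agent/Helper22/FE/LB.lean` (`term_int`, `goalLB`), with
`∏ i, RR (lo i) (n i)^(G i)` in place of `(n0!)^g`. The only new point: this product divides
`∏ j, (n j)!^(a j - e j)`. For one `i`: `RR (lo i) (n i)` divides `(n i)!`
(`Nat.factorization_prod_pow_eq_self`, a sub-product), so its power with exponent `n j / n i` divides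
`(n j)!` (`fact_dvd` in `Pool/Agent/Helper22/FE/LB.lean`); hence
`RR (lo i) (n i)^(Σ_{j ≥ i} (a j - e j) (n j / n i))` divides `∏ j, (n j)!^(a j - e j)`. For `i < i'` the
numbers `RR (lo i) (n i)` and `RR (lo i') (n i')` are coprime: the prime factors of the first are
`≤ n i ≤ lo i'`, those of the second `> lo i'`. Use `Finset.prod_dvd_of_coprime`
(pairwise coprime divisors). -/
def LB2 : Prop :=
  ∀ (S : Finset ℕ), (∀ p ∈ S, Nat.Prime p) → ∀ (m : ℕ) (r : Fin m → ℕ)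
    (c : (Fin m → ℕ) → ℤ) (n lo : Fin m → ℕ) (k : Fin m → ℕ → ℕ) (e : Fin m → ℕ) (E : ℕ → ℕ)
    (G : Fin m → ℕ), (∀ i j, i < j → n i ≤ lo j) →
    (∀ a, c a ≠ 0 → (∀ i, e i ≤ a i) →
      (∀ p ∈ S, ∑ i, (a i - e i) * k i p ≤ E p) ∧
      ∀ i, G i ≤ ∑ j ∈ Finset.univ.filter (fun j => i ≤ j), (a j - e j) * (n j / n i)) →
    val r c e (fun i => ((n i).factorial : ℚ) / (su S (k i) : ℚ)) ≠ 0 →
    (∏ i, ((RR (lo i) (n i) : ℕ) : ℝ) ^ (G i)) / (su S E : ℝ) ≤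
      |((val r c e (fun i => ((n i).factorial : ℚ) / (su S (k i) : ℚ)) : ℚ) : ℝ)|

/-- RP-LOGR (the size of the rough part).
PROOF. `log n! = Σ_{q ≤ n} v_q(n!) log q` (primes; `Nat.factorization_prod_pow_eq_self`), so
`log RR a n = log n! - Σ_{q ≤ a} v_q(n!) log q`. `v_q(n!) ≤ n/(q-1)`
(`sub_one_mul_padicValNat_factorial`, see `val_le` in `Pool/Agent/Helper8/FE/HGT.lean`), so the sum is
at most `n Σ_{q ≤ a} log q/(q-1)`. `1/(q-1) = 1/q + 1/(q(q-1))`, `Σ_{q ≤ a} log q/q ≤ log a + C`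
(Mertens: `A_bound` in `Pool/Agent/Helper69/LG/ME.lean`) and `Σ log q/(q(q-1))` is bounded
(`log q ≤ 2 √q`, `q (q-1) ≥ q²/2`, so the terms are `≤ 4 q^(-3/2)`; or `log q ≤ 4 q^(1/4)`, any way).
`log n! ≥ n log n - n` (`fact_lower`). -/
def LOGR : Prop :=
  ∃ c0 : ℝ, 0 ≤ c0 ∧ ∀ a n : ℕ, 1 ≤ a → a ≤ n →
    (n : ℝ) * (Real.log n - Real.log a - c0) ≤ Real.log (RR a n : ℝ)

/-- RP-CUP (upper bound for the number of lattice points in a simplex).
PROOF. Induction on `m` (for all `β`, `T`), `Fin.cons` (`b = Fin.cons x b'`, `Fin.sum_univ_succ`).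
`m = 0`: `B = univ`. Step: let `σ = Σ_{i ≥ 1} β i`; for `x < N` where `N` is the number of naturals `x`
with `x β 0 ≤ T` take the finset `B_x` of the induction hypothesis for `T - x β 0`; `B` = the union of
the `Fin.cons x B_x`. With `u_x = T - x β 0 + σ ≥ 0`:
`(m+1) β 0 u_x^m ≤ (u_x + β 0)^(m+1) - u_x^(m+1)` (binomial theorem or Bernoulli), and
`u_x + β 0 = u_(x-1)`; the sum telescopes to at most `(T + σ + β 0)^(m+1)`. -/
def CUP : Prop :=
  ∀ (m : ℕ) (β : Fin m → ℝ) (T : ℝ), (∀ i, 0 < β i) → 0 ≤ T →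
    ∃ B : Finset (Fin m → ℕ), (∀ b : Fin m → ℕ, ∑ i, (b i : ℝ) * β i < T → b ∈ B) ∧
      (B.card : ℝ) * ((m.factorial : ℝ) * ∏ i, β i) ≤ (T + ∑ i, β i) ^ m

/-- RP-CLZ (lower bound for the number of lattice points in a sheared simplex).
PROOF. Induction on `m` (for all `n, w, x, Δ`) with `Fin.snoc`: `d = Fin.snoc d' k`. The last condition
is `u := x + k n_last ≥ 0`, and for `i < last` one has
`x + up d i = u + Σ_{i ≤ j < last} d' j n j`. So for every integer `k` with `u ≥ 0` and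
`w_last u + σ ≤ Δ`, where `σ = Σ_{i < last} w i n i`, take the `V_k` of the induction hypothesis for
`x := u`, `Δ := Δ - w_last u`. The admissible `u` are `u_0, u_0 + n_last, ..., u_(J-1)` with
`0 ≤ u_0 < n_last` (`k_0 = ⌈-x/n_last⌉`). Put `g u = Δ - σ - w_last u`, `v = w_last n_last`. By the
induction hypothesis `card V_k m! ∏_{i<last} w i n i ≥ g(u)^m`. As `g(u + n_last) = g(u) - v`:
`(m+1) v g(u)^m ≥ g(u)^(m+1) - (max (g(u) - v) 0)^(m+1)` for `g(u) ≥ 0`, and the sum telescopes to at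
least `g(u_0)^(m+1) ≥ g(n_last)^(m+1) = (Δ - Σ w i n i)^(m+1)` (`g` is decreasing and this number is
`≥ 0` by hypothesis). `m = 0`: `V = univ`. -/
def CLZ : Prop :=
  ∀ (m : ℕ) (n w : Fin m → ℝ) (x Δ : ℝ), (∀ i, 0 < n i) → (∀ i, 0 < w i) →
    ∑ i, w i * n i ≤ Δ →
    ∃ V : Finset (Fin m → ℤ),
      (∀ d ∈ V, (∀ i, 0 ≤ x + up (fun j => (d j : ℝ) * n j) i) ∧
        ∑ i, w i * (x + up (fun j => (d j : ℝ) * n j) i) ≤ Δ) ∧
      (Δ - ∑ i, w i * n i) ^ m ≤ (V.card : ℝ) * ((m.factorial : ℝ) * ∏ i, (w i * n i))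

/-- RP-CLB (the same inside the box; may assume CLZ).
PROOF. Take `V` from CLZ with `x = 0` and `U` = the image of `V` under `a j = (s j + d j).toNat`. Let
`Z i = w i * up (..) i`, so `0 ≤ Z i ≤ Δ` (all `Z i` are `≥ 0` with sum `≤ Δ`). For `i + 1 = j`:
`d i n i = up i - up j`, so `d i n i ≤ up i ≤ Δ / w i ≤ n i (r i - s i)` and
`d i n i ≥ - up j ≥ -Δ/w j ≥ - n i s i`; for the last index `d n = up ≥ 0`. So `-s i ≤ d i ≤ r i - s i`,
`s i + d i` is a natural number `≤ r i`, the map is injective on `V`, and `(a j : ℝ) - s j = d j`. -/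
def CLB : Prop :=
  ∀ (m : ℕ) (n w : Fin m → ℝ) (r s : Fin m → ℕ) (Δ : ℝ), (∀ i, 0 < n i) → (∀ i, 0 < w i) →
    ∑ i, w i * n i ≤ Δ →
    (∀ j, Δ ≤ w j * n j * ((r j : ℝ) - s j)) →
    (∀ i j : Fin m, (j : ℕ) = i + 1 → Δ ≤ w j * n i * (s i : ℝ)) →
    ∃ U : Finset (Fin m → ℕ), U ⊆ box r ∧
      (∀ a ∈ U, (∀ i, 0 ≤ up (fun j => ((a j : ℝ) - s j) * n j) i) ∧
        ∑ i, w i * up (fun j => ((a j : ℝ) - s j) * n j) i ≤ Δ) ∧
      (Δ - ∑ i, w i * n i) ^ m ≤ (U.card : ℝ) * ((m.factorial : ℝ) * ∏ i, (w i * n i))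

/-- RP-CELL (pigeonhole).
PROOF. The class of `a` is `p ↦ ⌊F p a / δ⌋₊` for `p ∈ S` (and `0` outside `S`), an element of a finset
of `N^(card S)` functions (`Finset.pi S (fun _ => range N)` or `Fintype.piFinset` on `S`); some class has
at least `card U / N^(card S)` elements (`Finset.exists_le_card_fiber_of_mul_le_card_of_maps_to` or
`Finset.card_eq_sum_card_fiberwise` and a maximal fibre). -/
def CELL : Prop :=
  ∀ (α : Type) [DecidableEq α] (U : Finset α) (S : Finset ℕ) (F : ℕ → α → ℝ) (δ : ℝ) (N : ℕ),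
    0 < δ → U.Nonempty → (∀ p ∈ S, ∀ a ∈ U, 0 ≤ F p a ∧ F p a < N * δ) →
    ∃ A : Finset α, A ⊆ U ∧ A.Nonempty ∧ U.card ≤ A.card * N ^ S.card ∧
      ∀ p ∈ S, ∀ a ∈ A, ∀ b ∈ A, F p a ≤ F p b + δ

/-- RP-NEAR.
PROOF. Let `h = n log n`, `P = su S k`. `exp(C h)/n! ≤ exp(C h - h + n)` (`fact_lower`), which is
`≤ exp(-h/2 + n) ≤ 1/2` for `n ≥ 100` (`log 100 > 4.6`). So `P ≥ n!/2`,
`|n!/P - 1| = |n! - P|/P ≤ 2 exp(C h)/n! ≤ exp(C h - h + 2 n)`, and `P ≤ n! + exp(C h) ≤ 2 n! ≤ e n!`,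
`log n! ≤ h` (`log_fact_upper`). -/
def NEAR2 : Prop :=
  ∀ (S : Finset ℕ), (∀ p ∈ S, Nat.Prime p) → ∀ C : ℝ, 0 ≤ C → C ≤ 1 / 2 →
    ∀ n : ℕ, 100 ≤ n → ∀ k : ℕ → ℕ, Near S C n k →
      |((((n.factorial : ℕ) : ℚ) / (su S k : ℚ) : ℚ) : ℝ) - 1| ≤
        Real.exp (-((1 - C) * ((n : ℝ) * Real.log n) - 2 * n)) ∧
      Real.log (su S k : ℝ) ≤ (n : ℝ) * Real.log n + 1

/-- RP-CORE (helper43; from all the goals above and `Pool.Agent.Helper8.FE.goalHGT`). -/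
def CORE2 : Prop :=
  ∀ (S : Finset ℕ), (∀ p ∈ S, Nat.Prime p) → ∀ δ C : ℝ, 0 < δ → δ ≤ 1 → 0 < C → C ≤ 1 / 64 →
    ∃ m x0 : ℕ, 2 ≤ m ∧ ∀ (n : ℕ → ℕ) (k : ℕ → ℕ → ℕ), (∀ i, i < m → x0 ≤ n i) →
      (∀ i, i + 1 < m → (1 + δ) * Real.log (n i) ≤ Real.log (n (i + 1))) →
      (∀ i, i < m → Near S C (n i) (k i)) →
      ∑ i ∈ range (m - 1), Real.log (n i) / Real.log (n (i + 1)) < 3 * C * m

/-- RP-GREED (greedy chain).
PROOF. Strong induction on `E.card`. `E` empty: `N = 0`. Otherwise let `x = E.min'`, `E' =` the part of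
`E` with `(1+δ) log x < log y`. The rest of `E` has at most `K` elements, all `≥ x`. Take the chain
`n'`, `N'` of `E'` and put `n 0 = x`, `n (i+1) = n' i`, `N = N' + 1`; `n' 0 ∈ E'` gives the new
inequality. -/
def GREED : Prop :=
  ∀ (K : ℕ) (δ : ℝ) (E : Finset ℕ), 0 ≤ δ →
    (∀ x ∈ E, ∀ W ⊆ E, (∀ y ∈ W, x ≤ y ∧ Real.log y ≤ (1 + δ) * Real.log x) → W.card ≤ K) →
    ∃ (N : ℕ) (n : ℕ → ℕ), E.card ≤ K * N ∧ (∀ i, i < N → n i ∈ E) ∧
      ∀ i, i + 1 < N → (1 + δ) * Real.log (n i) ≤ Real.log (n (i + 1))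

/-- RP-BLKS (blocks of `m` consecutive elements).
PROOF. One block: put `λ = 6 C`. `-log u ≥ 1 - log λ - u/λ` for `u > 0` (`Real.log_le_sub_one_of_pos`
for `u/λ`), so for `u_i = L (b+i)/L (b+i+1)`:
`log L(b+m-1) - log L(b) = Σ_{i<m-1} -log u_i ≥ (m-1) - (m-1) log λ - 3 C m/(6 C) ≥ (m-1) log(1/(6 C))`
(as `m - 1 ≥ m/2`), and `log(1/(6C)) ≥ (1/2) log(1/C)` because `36 C² ≤ C`. Sum over the blocks
`b = 0, m, 2m, ..` with `b + m ≤ N` (there are `⌊N/m⌋`, and `log L` is monotone):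
`log(L(N-1)/L(0)) ≥ ⌊N/m⌋ (m-1)/2 log(1/C)`, and `N ≤ m (⌊N/m⌋ + 1)`, `m/(m-1) ≤ 2`. (Or induction on
`N`: remove the first `m` elements.) -/
def BLKS : Prop :=
  ∀ (m N : ℕ) (L : ℕ → ℝ) (C : ℝ), 2 ≤ m → 1 ≤ N → 0 < C → C ≤ 1 / 64 → (∀ i, i < N → 0 < L i) →
    (∀ i, i + 1 < N → L i ≤ L (i + 1)) →
    (∀ b, b + m ≤ N → ∑ i ∈ range (m - 1), L (b + i) / L (b + i + 1) < 3 * C * m) →
    (N : ℝ) ≤ m + 4 * Real.log (L (N - 1) / L 0) / Real.log (1 / C)

/-- RP-CNT (from CORE2, GREED, BLKS, and `Pool.Agent.Helper50.FE.win`, `Pool.Agent.Helper50.FE.count`).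
PROOF. Let `K, x1, ε` be as in `win` for `η = 1/2` (`1 - η = 1/2`), `δ = min ε 1`, and `M'` as in
`count` for `C = 1/2`; `M = 4 K + |M'| (1 + log 64)`. `Near S C n k` implies `Near S C' n k` for
`C ≤ C'`, `n ≥ 1`.
(1) `1/64 < C ≤ 1/2`: the number is at most
`M' (1 + Λ) ≤ |M'| + |M'| log 64 · Λ / log(1/C)`, `Λ = log(log X/log Y) ≥ 0`, `0 < log(1/C) ≤ log 64`.
(2) `C ≤ 1/64`: take `m, x0` from CORE2 for `δ, C`; `E` = the set of the exceptional `n` in `[Y, X]` with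
`n ≥ max x0 (max x1 3)`, `x2` = this bound. GREED (with `win` for the hypothesis) gives a chain `n`, `N`
with `card E ≤ K N`; CORE2 applied to `i ↦ n (b + i)` gives the hypothesis of BLKS for
`L i = log n i`. `L (N-1)/L 0 ≤ log X/log Y`. So `card E ≤ K (m + 4 Λ/log(1/C))` and the number is at
most `x2 + K m + 4 K Λ/log(1/C)`. -/
def CNT2 : Prop :=
  CORE2 → ∀ (S : Finset ℕ), (∀ p ∈ S, Nat.Prime p) → ∃ M : ℝ, ∀ C : ℝ, 0 < C → C ≤ 1 / 2 →
    ∃ B : ℝ, ∀ Y X : ℕ, 2 ≤ Y → Y ≤ X →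
      (({n : ℕ | Y ≤ n ∧ n ≤ X ∧ ∃ k, Near S C n k}.ncard : ℕ) : ℝ) ≤
        B + M * (Real.log (Real.log X / Real.log Y) / Real.log (1 / C))

end Pool.Agent.Helper43.RP
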