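import Pool.Agent.Helper43.RP.CORE
import Pool.Agent.Helper90.RP.NV
import Pool.Agent.Helper4.RP.SIEG
import Pool.Agent.Helper14.RP.UB
import Pool.Agent.Helper71.RP.LB
import Pool.Agent.Helper3.RP.LOGR
import Pool.Agent.Helper9.RP.CUP
import Pool.Agent.Helper57.RP.CLZ
import Pool.Agent.Helper51.RP.CLB
import Pool.Agent.Helper51.RP.CELL
import Pool.Agent.Helper32.RP.NEAR
import Pool.Agent.Helper39.RP.GREED
import Pool.Agent.Helper48.RP.BLKS
import Pool.Agent.Helper43.RP.CNT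

/-! Assembly of project RP -/

set_option autoImplicit false

open Pool.Agent.Helper22.FSU

namespace Pool.Agent.Helper43.RP

theorem core : CORE2 :=
  core2 Pool.Agent.Helper4.RP.SIEG.t Pool.Agent.Helper90.RP.NV.t Pool.Agent.Helper14.RP.UB.t Pool.Agent.Helper71.RP.LB.t
    Pool.Agent.Helper3.RP.LOGR.t Pool.Agent.Helper9.RP.CUP.t
    (Pool.Agent.Helper51.RP.CLB.t Pool.Agent.Helper57.RP.CLZ.t) Pool.Agent.Helper51.RP.CELL.t
    Pool.Agent.Helper32.RP.NEAR.t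

theorem count2 (S : Finset ℕ) (hS : ∀ p ∈ S, Nat.Prime p) :
    ∃ M : ℝ, ∀ C : ℝ, 0 < C → C ≤ 1 / 2 →
    ∃ B : ℝ, ∀ Y X : ℕ, 2 ≤ Y → Y ≤ X →
      (({n : ℕ | Y ≤ n ∧ n ≤ X ∧ ∃ k, Near S C n k}.ncard : ℕ) : ℝ) ≤
        B + M * (Real.log (Real.log X / Real.log Y) / Real.log (1 / C)) :=
  Pool.Agent.Helper43.RP.CNT.t
    (fun K δ E hδ hE => Pool.Agent.Helper39.RP.GREED.greed K δ E hδ hE)
    Pool.Agent.Helper48.RP.BLKS.t core S hS

end Pool.Agent.Helper43.RP
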